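import Pool.Agent.H345R2.A4.VVb
import Pool.Agent.H345R2.A2.PC2

/-! Elementary inequalities for the pointwise estimate. -/

open Filter Topology Set

namespace H370.A4

lemma pow_up {θ : ℝ} (h0 : 0 ≤ θ) (h1 : θ ≤ 1) : (1 + θ) ^ 3 ≤ 1 + 7 * θ ∧
    (1 + θ) ^ 4 ≤ 1 + 15 * θ := by
  have h2 : θ ^ 2 ≤ θ := by nlinarith
  have h3 : θ ^ 3 ≤ θ := by nlinarith [mul_nonneg h0 h0]
  have h4 : θ ^ 4 ≤ θ := by nlinarith [mul_nonneg h0 h0, mul_nonneg (mul_nonneg h0 h0) h0]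
  constructor
  · calc (1 + θ) ^ 3 = 1 + 3 * θ + 3 * θ ^ 2 + θ ^ 3 := by ring
      _ ≤ _ := by linarith
  · calc (1 + θ) ^ 4 = 1 + 4 * θ + 6 * θ ^ 2 + 4 * θ ^ 3 + θ ^ 4 := by ring
      _ ≤ _ := by linarith

lemma comb_up (θ H L LT s e E V u K1 K2 IE J C1 e1 : ℝ) (hθ0 : 0 < θ) (hθ1 : θ ≤ 1)
    (hH0 : 0 < H) (hLT : 0 < LT) (hL0 : 0 < L) (hL1 : L ≤ (1 + θ) * LT) (hs1 : 1 ≤ s)
    (he : 0 ≤ e) (hE : 0 ≤ E) (hu : 0 ≤ u) (huL : u ≤ 2 * LT)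
    (hV : V ≤ s * u + (e1 * u + C1)) (he1 : 0 ≤ e1) (hC1 : 0 ≤ C1) (hK1 : 0 < K1) (hK2 : 0 < K2)
    (hIE : IE ≤ H) (hV0 : 0 ≤ V)
    (hJ : J ≤ (1 + θ) / (2 * Real.pi) * (H * L ^ 2 * e + K1 * (H * L) * E +
      (1 + θ) ^ 3 * H * V + (1 + θ) ^ 2 * IE) + K2 * H) :
    J / s ≤ H / (2 * Real.pi) * (LT ^ 2 * e / s + u) + H / (2 * Real.pi) *
      (7 * θ * LT ^ 2 * e + 4 * K1 * LT * E + (15 * θ + 16 * e1) * (2 * LT) +
        (16 * C1 + 8 + 2 * Real.pi * K2)) := by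
  have hpi := Real.pi_pos
  obtain ⟨p3, p4⟩ := pow_up hθ0.le hθ1
  have hs0 : 0 < s := by linarith
  have q : ∀ x : ℝ, 0 ≤ x → x / s ≤ x := fun x hx => div_le_self hx hs1
  set N0 : ℝ := H / (2 * Real.pi) with hN0
  have hN00 : 0 < N0 := by positivity
  have hL2 : L ≤ 2 * LT := hL1.trans (by nlinarith)
  have t1 : (1 + θ) * L ^ 2 * e / s ≤ LT ^ 2 * e / s + 7 * θ * LT ^ 2 * e := by
    have h1 : L ^ 2 ≤ ((1 + θ) * LT) ^ 2 := by gcongr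
    have h2 : (1 + θ) * L ^ 2 ≤ (1 + 7 * θ) * LT ^ 2 := by
      calc (1 + θ) * L ^ 2 ≤ (1 + θ) * ((1 + θ) * LT) ^ 2 := by gcongr
        _ = (1 + θ) ^ 3 * LT ^ 2 := by ring
        _ ≤ _ := by gcongr
    calc (1 + θ) * L ^ 2 * e / s ≤ (1 + 7 * θ) * LT ^ 2 * e / s := by gcongr
      _ = LT ^ 2 * e / s + 7 * θ * LT ^ 2 * e / s := by ring
      _ ≤ _ := by
        have := q (7 * θ * LT ^ 2 * e) (by positivity)
        linarith
  have t2 : (1 + θ) * (K1 * L * E) / s ≤ 4 * K1 * LT * E := by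
    calc (1 + θ) * (K1 * L * E) / s ≤ (1 + θ) * (K1 * L * E) := q _ (by positivity)
      _ ≤ 2 * (K1 * (2 * LT) * E) := by
        have : 1 + θ ≤ 2 := by linarith
        gcongr
      _ = _ := by ring
  have t3 : (1 + θ) ^ 4 * V / s ≤ u + (15 * θ * u + 16 * (e1 * u + C1)) := by
    have h1 : 0 ≤ e1 * u + C1 := by positivity
    calc (1 + θ) ^ 4 * V / s ≤ (1 + 15 * θ) * (s * u + (e1 * u + C1)) / s := by gcongr
      _ = (1 + 15 * θ) * u + (1 + 15 * θ) * (e1 * u + C1) / s := by field_simp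
      _ ≤ (1 + 15 * θ) * u + (1 + 15 * θ) * (e1 * u + C1) := by
          gcongr
          exact q _ (by positivity)
      _ ≤ (1 + 15 * θ) * u + 16 * (e1 * u + C1) := by gcongr; linarith
      _ = _ := by ring
  have t4 : (1 + θ) ^ 3 * (IE / H) / s ≤ 8 := by
    have h1 : (1 + θ) ^ 3 ≤ 8 := by linarith
    have h2 : IE / H ≤ 1 := by rw [div_le_one hH0]; exact hIE
    have h3 : 0 ≤ (1 + θ) ^ 3 := by positivity
    calc (1 + θ) ^ 3 * (IE / H) / s ≤ (1 + θ) ^ 3 * 1 / s := by gcongr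
      _ ≤ (1 + θ) ^ 3 * 1 := q _ (by positivity)
      _ ≤ 8 := by linarith
  have t5 : K2 * H / s ≤ N0 * (2 * Real.pi * K2) := by
    calc K2 * H / s ≤ K2 * H := q _ (by positivity)
      _ = _ := by rw [hN0]; field_simp
  calc J / s ≤ ((1 + θ) / (2 * Real.pi) * (H * L ^ 2 * e + K1 * (H * L) * E +
      (1 + θ) ^ 3 * H * V + (1 + θ) ^ 2 * IE) + K2 * H) / s := by gcongr
    _ = N0 * ((1 + θ) * L ^ 2 * e / s + (1 + θ) * (K1 * L * E) / s + (1 + θ) ^ 4 * V / s +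
        (1 + θ) ^ 3 * (IE / H) / s) + K2 * H / s := by
        rw [hN0]
        field_simp
    _ ≤ N0 * ((LT ^ 2 * e / s + 7 * θ * LT ^ 2 * e) + 4 * K1 * LT * E +
        (u + (15 * θ * u + 16 * (e1 * u + C1))) + 8) + N0 * (2 * Real.pi * K2) := by gcongr
    _ = N0 * (LT ^ 2 * e / s + u) + N0 * (7 * θ * LT ^ 2 * e + 4 * K1 * LT * E +
        (15 * θ + 16 * e1) * u + (16 * C1 + 8 + 2 * Real.pi * K2)) := by ring
    _ ≤ _ := by gcongr

lemma comb_low (θ H L LT s e E V u K1 K2 IE J C1 e1 : ℝ) (hθ0 : 0 < θ) (hθ4 : θ ≤ 1 / 4)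
    (hH0 : 0 < H) (hLT : 0 < LT) (hL0 : 0 < L) (hL1 : (1 - θ) * LT ≤ L) (hL2 : L ≤ 2 * LT)
    (hs1 : 1 ≤ s) (hs2 : s ≤ 2)
    (he : 0 ≤ e) (hE : 0 ≤ E) (hu : 0 ≤ u) (huL : u ≤ 2 * LT)
    (hV : s * u - (e1 * u + C1) ≤ V) (hV' : V ≤ s * u + (e1 * u + C1)) (he1 : 0 ≤ e1)
    (hC1 : 0 ≤ C1) (hK1 : 0 < K1) (hK2 : 0 < K2) (hIE : IE ≤ H) (hV0 : 0 ≤ V)
    (hJ : 1 / (2 * Real.pi * (1 + θ)) * ((1 - θ) * H * L ^ 2 * e - K1 * (H * L) * E +
      (1 - θ) / (1 + θ) * H * V - IE) - K2 * H ≤ J) :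
    H / (2 * Real.pi) * (LT ^ 2 * e / s + u) - H / (2 * Real.pi) *
      (7 * θ * LT ^ 2 * e + 4 * K1 * LT * E + (15 * θ + 16 * e1) * (2 * LT) +
        (16 * C1 + 8 + 2 * Real.pi * K2)) ≤ J / s := by
  have hpi := Real.pi_pos
  have hs0 : 0 < s := by linarith
  have q : ∀ x : ℝ, 0 ≤ x → x / s ≤ x := fun x hx => div_le_self hx hs1
  have h1θ : 0 ≤ 1 - θ := by linarith
  set N0 : ℝ := H / (2 * Real.pi) with hN0
  have hN00 : 0 < N0 := by positivity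
  have a1 : 1 - 4 * θ ≤ (1 - θ) ^ 3 / (1 + θ) := H370.A2.pow_low θ hθ0.le hθ4
  have a2 : 1 - 4 * θ ≤ (1 - θ) / ((1 + θ) * (1 + θ)) := H370.A2.pow_low2 θ hθ0.le hθ4
  have t1 : LT ^ 2 * e / s - 7 * θ * LT ^ 2 * e ≤ (1 - θ) / (1 + θ) * L ^ 2 * e / s := by
    have h1 : ((1 - θ) * LT) ^ 2 ≤ L ^ 2 := by gcongr
    calc LT ^ 2 * e / s - 7 * θ * LT ^ 2 * e ≤ LT ^ 2 * e / s - 4 * θ * LT ^ 2 * e / s := by
          have := q (4 * θ * LT ^ 2 * e) (by positivity)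
          have h3 : 0 ≤ 3 * θ * LT ^ 2 * e := by positivity
          linarith
      _ = (1 - 4 * θ) * LT ^ 2 * e / s := by ring
      _ ≤ (1 - θ) ^ 3 / (1 + θ) * LT ^ 2 * e / s := by gcongr
      _ = (1 - θ) / (1 + θ) * ((1 - θ) * LT) ^ 2 * e / s := by ring
      _ ≤ _ := by gcongr
  have t2 : 1 / (1 + θ) * (K1 * L * E) / s ≤ 4 * K1 * LT * E := by
    calc 1 / (1 + θ) * (K1 * L * E) / s ≤ 1 / (1 + θ) * (K1 * L * E) := q _ (by positivity)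
      _ ≤ 1 * (K1 * (2 * LT) * E) := by
        have : 1 / (1 + θ) ≤ 1 := by rw [div_le_one (by linarith)]; linarith
        gcongr
      _ = 2 * K1 * LT * E := by ring
      _ ≤ 4 * K1 * LT * E := by
        have : 0 ≤ K1 * LT * E := by positivity
        linarith
  have t3 : u - (15 * θ * u + 16 * (e1 * u + C1)) ≤ (1 - θ) / ((1 + θ) * (1 + θ)) * V / s := by
    have h1 : 0 ≤ e1 * u + C1 := by positivity
    have h2 : (1 - 4 * θ) * V / s ≤ (1 - θ) / ((1 + θ) * (1 + θ)) * V / s := by gcongr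
    refine le_trans ?_ h2
    rw [le_div_iff₀ hs0]
    have h3 : 4 * θ * V ≤ 4 * θ * (s * u + (e1 * u + C1)) := by gcongr
    have h4 : 0 ≤ θ * u := by positivity
    have h5 : 0 ≤ θ * (s * u) := by positivity
    have h6 : (e1 * u + C1) ≤ s * (e1 * u + C1) := by nlinarith
    have h7 : θ * (e1 * u + C1) ≤ 1 * (e1 * u + C1) := by gcongr; linarith
    nlinarith
  have t4 : 1 / (1 + θ) * (IE / H) / s ≤ 8 := by
    have h2 : IE / H ≤ 1 := by rw [div_le_one hH0]; exact hIE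
    have h4 : 1 / (1 + θ) ≤ 1 := by rw [div_le_one (by linarith)]; linarith
    have h3 : 0 ≤ 1 / (1 + θ) := by positivity
    calc 1 / (1 + θ) * (IE / H) / s ≤ 1 / (1 + θ) * 1 / s := by gcongr
      _ ≤ 1 / (1 + θ) * 1 := q _ (by positivity)
      _ ≤ 8 := by linarith
  have t5 : K2 * H / s ≤ N0 * (2 * Real.pi * K2) := by
    calc K2 * H / s ≤ K2 * H := q _ (by positivity)
      _ = _ := by rw [hN0]; field_simp
  have hid : (1 / (2 * Real.pi * (1 + θ)) * ((1 - θ) * H * L ^ 2 * e - K1 * (H * L) * E +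
      (1 - θ) / (1 + θ) * H * V - IE) - K2 * H) / s =
      N0 * ((1 - θ) / (1 + θ) * L ^ 2 * e / s - 1 / (1 + θ) * (K1 * L * E) / s +
        (1 - θ) / ((1 + θ) * (1 + θ)) * V / s - 1 / (1 + θ) * (IE / H) / s) - K2 * H / s := by
    rw [hN0]
    field_simp
  have hJs := div_le_div_of_nonneg_right hJ hs0.le
  rw [hid] at hJs
  refine le_trans ?_ hJs
  have h9 : N0 * ((LT ^ 2 * e / s - 7 * θ * LT ^ 2 * e) - 4 * K1 * LT * E +
      (u - (15 * θ * u + 16 * (e1 * u + C1))) - 8) ≤ N0 * ((1 - θ) / (1 + θ) * L ^ 2 * e / s -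
        1 / (1 + θ) * (K1 * L * E) / s +
        (1 - θ) / ((1 + θ) * (1 + θ)) * V / s - 1 / (1 + θ) * (IE / H) / s) := by
    apply mul_le_mul_of_nonneg_left _ hN00.le
    linarith
  have h10 : N0 * ((15 * θ + 16 * e1) * u) ≤ N0 * ((15 * θ + 16 * e1) * (2 * LT)) := by gcongr
  have h11 : N0 * (LT ^ 2 * e / s + u) - N0 *
      (7 * θ * LT ^ 2 * e + 4 * K1 * LT * E + (15 * θ + 16 * e1) * (2 * LT) +
        (16 * C1 + 8 + 2 * Real.pi * K2)) = N0 * ((LT ^ 2 * e / s - 7 * θ * LT ^ 2 * e) -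
        4 * K1 * LT * E + (u - (15 * θ * u + 16 * (e1 * u + C1))) - 8) -
        N0 * (2 * Real.pi * K2) + (N0 * ((15 * θ + 16 * e1) * u) -
          N0 * ((15 * θ + 16 * e1) * (2 * LT))) := by ring
  rw [h11]
  linarith

/-- the intermediate range of `u` -/
lemma mid_bound (K ε : ℝ) (hK : 0 < K) (hε : 0 < ε) : ∃ L0 : ℝ, ∀ LT : ℝ, L0 ≤ LT →
    ∀ u : ℝ, 0 ≤ u → K * Real.exp (2 * u - u ^ 2 / 2) ≤ ε * (1 + LT * Real.exp (-u ^ 2)) := by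
  set U : ℝ := max 6 (Real.log (K / ε)) with hU
  refine ⟨max 0 (K * Real.exp (2 * U + U ^ 2) / ε), fun LT hLT u hu => ?_⟩
  have hLT0 : 0 ≤ LT := (le_max_left _ _).trans hLT
  have hLT1 : K * Real.exp (2 * U + U ^ 2) / ε ≤ LT := (le_max_right _ _).trans hLT
  have hU6 : 6 ≤ U := le_max_left _ _
  have hUl : Real.log (K / ε) ≤ U := le_max_right _ _
  rcases le_or_gt u U with h | h
  · rw [div_le_iff₀ hε] at hLT1
    have h1 : Real.exp (2 * u - u ^ 2 / 2) ≤ Real.exp (2 * U + U ^ 2) * Real.exp (-u ^ 2) := by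
      rw [← Real.exp_add]
      apply Real.exp_le_exp.2
      nlinarith
    calc K * Real.exp (2 * u - u ^ 2 / 2) ≤
        K * (Real.exp (2 * U + U ^ 2) * Real.exp (-u ^ 2)) := by gcongr
      _ = (K * Real.exp (2 * U + U ^ 2)) * Real.exp (-u ^ 2) := by ring
      _ ≤ (LT * ε) * Real.exp (-u ^ 2) := by gcongr
      _ ≤ ε * (1 + LT * Real.exp (-u ^ 2)) := by nlinarith
  · have h1 : Real.exp (2 * u - u ^ 2 / 2) ≤ Real.exp (-(Real.log (K / ε))) := by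
      apply Real.exp_le_exp.2
      nlinarith
    have h2 : Real.exp (-(Real.log (K / ε))) = ε / K := by
      rw [Real.exp_neg, Real.exp_log (by positivity), inv_div]
    rw [h2] at h1
    calc K * Real.exp (2 * u - u ^ 2 / 2) ≤ K * (ε / K) := by gcongr
      _ = ε := by field_simp
      _ ≤ ε * (1 + LT * Real.exp (-u ^ 2)) := by
        have : 0 ≤ LT * Real.exp (-u ^ 2) := by positivity
        nlinarith

/-- total error -/
lemma err_total (θ LT e E K1 K2 C1 e1 ε : ℝ) (hLT : 1 ≤ LT) (he : 0 ≤ e) (hε : 0 < ε)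
    (hθ : θ ≤ ε / 240) (he1 : e1 ≤ ε / 256)
    (hE : 4 * K1 * E ≤ ε / 4 * (1 + LT * e))
    (hC : 16 * C1 + 8 + 2 * Real.pi * K2 ≤ ε / 4 * LT) :
    7 * θ * LT ^ 2 * e + 4 * K1 * LT * E + (15 * θ + 16 * e1) * (2 * LT) +
        (16 * C1 + 8 + 2 * Real.pi * K2) ≤ ε * LT * (1 + LT * e) := by
  have h1 : 7 * θ * LT ^ 2 * e ≤ ε / 4 * LT * (LT * e) := by
    have : θ * (LT ^ 2 * e) ≤ ε / 240 * (LT ^ 2 * e) := by gcongr
    have h0 : 0 ≤ ε * (LT ^ 2 * e) := by positivity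
    nlinarith
  have h2 : 4 * K1 * LT * E ≤ ε / 4 * LT * (1 + LT * e) := by
    calc 4 * K1 * LT * E = LT * (4 * K1 * E) := by ring
      _ ≤ LT * (ε / 4 * (1 + LT * e)) := by gcongr
      _ = _ := by ring
  have h3 : (15 * θ + 16 * e1) * (2 * LT) ≤ ε / 4 * LT := by
    have : 15 * θ + 16 * e1 ≤ ε / 8 := by linarith
    calc (15 * θ + 16 * e1) * (2 * LT) ≤ ε / 8 * (2 * LT) := by gcongr
      _ = _ := by ring
  have h4 : 0 ≤ ε * LT * (LT * e) := by positivity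
  nlinarith

end H370.A4
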