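import Pool.Agent.H345R2.A4.Net

/-! Averages of the pair function over windows of the shape of a triangle. -/

open Complex Filter Topology Set MeasureTheory
open scoped BigOperators ComplexConjugate

namespace H370.A4

open H295SI H370.AS H370.A2

/-- transform of the triangle -/
noncomputable def Ph (μ x : ℝ) : ℝ := ∫ α in (-μ)..μ, (1 - |α| / μ) * Real.cos (α * x)

lemma Ph_eq {μ x : ℝ} (hμ : 0 < μ) (hx : x ≠ 0) :
    Ph μ x = 2 * (1 - Real.cos (μ * x)) / (μ * x ^ 2) := by
  unfold Ph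
  rw [int_sym (fun α => (1 - |α| / μ) * Real.cos (α * x)) (by fun_prop) μ]
  have h1 : ∀ α ∈ Set.uIcc (0 : ℝ) μ, (1 - |α| / μ) * Real.cos (α * x) +
      (1 - |-α| / μ) * Real.cos (-α * x) = 2 * ((1 - α / μ) * Real.cos (α * x)) := by
    intro α hα
    rw [Set.uIcc_of_le hμ.le] at hα
    rw [abs_neg, abs_of_nonneg hα.1, neg_mul, Real.cos_neg]
    ring
  rw [intervalIntegral.integral_congr h1]
  have h2 : ∀ α ∈ Set.uIcc (0 : ℝ) μ, HasDerivAt (fun α : ℝ => 2 * ((1 - α / μ) *
      Real.sin (α * x) / x - Real.cos (α * x) / (μ * x ^ 2)))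
      (2 * ((1 - α / μ) * Real.cos (α * x))) α := by
    intro α _
    have h3 : HasDerivAt (fun α : ℝ => α * x) x α := by
      simpa using (hasDerivAt_id α).mul_const x
    have h6 : HasDerivAt (fun α : ℝ => 1 - α / μ) (-(1 / μ)) α := by
      simpa using ((hasDerivAt_id α).div_const μ).const_sub 1
    have h7 := (((h6.mul h3.sin).div_const x).sub (h3.cos.div_const (μ * x ^ 2))).const_mul 2
    refine h7.congr_deriv ?_
    field_simp
    ring
  rw [intervalIntegral.integral_eq_sub_of_hasDerivAt h2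
    ((by fun_prop : Continuous fun α : ℝ => 2 * ((1 - α / μ) *
      Real.cos (α * x))).intervalIntegrable _ _)]
  simp only [zero_mul, Real.sin_zero, Real.cos_zero, mul_zero, zero_div]
  field_simp
  ring

lemma Ph_zero {μ : ℝ} (hμ : 0 < μ) : Ph μ 0 = μ := by
  unfold Ph
  simp only [mul_zero, Real.cos_zero, mul_one]
  rw [int_sym (fun α => (1 - |α| / μ)) (by fun_prop) μ]
  have h1 : ∀ α ∈ Set.uIcc (0 : ℝ) μ, (1 - |α| / μ) + (1 - |-α| / μ) = 2 - 2 / μ * α := by
    intro α hα
    rw [Set.uIcc_of_le hμ.le] at hα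
    rw [abs_neg, abs_of_nonneg hα.1]
    ring
  rw [intervalIntegral.integral_congr h1, intervalIntegral.integral_sub
    (f := fun _ : ℝ => (2 : ℝ)) (g := fun α : ℝ => 2 / μ * α)
    (continuous_const.intervalIntegrable _ _)
    ((by fun_prop : Continuous fun α : ℝ => 2 / μ * α).intervalIntegrable _ _),
    intervalIntegral.integral_const, intervalIntegral.integral_const_mul, integral_id, smul_eq_mul]
  field_simp
  ring

lemma Ph_nonneg {μ : ℝ} (hμ : 0 < μ) (x : ℝ) : 0 ≤ Ph μ x := by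
  rcases eq_or_ne x 0 with h | h
  · rw [h, Ph_zero hμ]; exact hμ.le
  · rw [Ph_eq hμ h]
    have := Real.cos_le_one (μ * x)
    have h2 : 0 ≤ 1 - Real.cos (μ * x) := by linarith
    positivity

lemma Ph_bound {μ : ℝ} (hμ : 0 < μ) (x : ℝ) : Ph μ x * x ^ 2 ≤ 4 / μ := by
  rcases eq_or_ne x 0 with h | h
  · rw [h]; simp; positivity
  · rw [Ph_eq hμ h]
    have := Real.neg_one_le_cos (μ * x)
    have e : 2 * (1 - Real.cos (μ * x)) / (μ * x ^ 2) * x ^ 2 =
        2 * (1 - Real.cos (μ * x)) / μ := by field_simp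
    rw [e]
    gcongr
    linarith

lemma Ph_shift (μ b x : ℝ) :
    ∫ α in (b - μ)..(b + μ), (1 - |α - b| / μ) * Real.cos (α * x) = Real.cos (b * x) * Ph μ x := by
  have h1 := intervalIntegral.integral_comp_add_right (a := -μ) (b := μ)
    (fun α => (1 - |α - b| / μ) * Real.cos (α * x)) b
  rw [show -μ + b = b - μ by ring, show μ + b = b + μ by ring] at h1
  rw [← h1]
  have h2 : ∀ α : ℝ, (1 - |α + b - b| / μ) * Real.cos ((α + b) * x) =
      Real.cos (b * x) * ((1 - |α| / μ) * Real.cos (α * x)) -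
        Real.sin (b * x) * ((1 - |α| / μ) * Real.sin (α * x)) := by
    intro α
    rw [add_sub_cancel_right, add_mul, Real.cos_add]
    ring
  simp_rw [h2]
  have c1 : Continuous fun α : ℝ => Real.cos (b * x) * ((1 - |α| / μ) * Real.cos (α * x)) := by
    fun_prop
  have c2 : Continuous fun α : ℝ => Real.sin (b * x) * ((1 - |α| / μ) * Real.sin (α * x)) := by
    fun_prop
  have c3 : Continuous fun α : ℝ => (1 - |α| / μ) * Real.sin (α * x) := by fun_prop
  rw [intervalIntegral.integral_sub (c1.intervalIntegrable _ _) (c2.intervalIntegrable _ _),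
    intervalIntegral.integral_const_mul, intervalIntegral.integral_const_mul]
  have h3 : ∫ α in (-μ)..μ, (1 - |α| / μ) * Real.sin (α * x) = 0 := by
    rw [int_sym (fun α => (1 - |α| / μ) * Real.sin (α * x)) c3 μ]
    have : ∀ α : ℝ, (1 - |α| / μ) * Real.sin (α * x) + (1 - |-α| / μ) * Real.sin (-α * x) = 0 := by
      intro α
      rw [abs_neg, neg_mul, Real.sin_neg]
      ring
    simp_rw [this]
    simp
  rw [h3]
  unfold Ph
  ring

lemma w_aux (d : ℝ) : 0 ≤ 4 / (4 + d ^ 2) - Real.exp (-d ^ 2 / 4) ∧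
    (4 / (4 + d ^ 2) - Real.exp (-d ^ 2 / 4)) * (1 + d ^ 2) ≤ 2 * d ^ 2 := by
  have h0 : 0 ≤ d ^ 2 := sq_nonneg d
  have h1 : 1 - d ^ 2 / 4 ≤ Real.exp (-d ^ 2 / 4) := by
    have := Real.add_one_le_exp (-d ^ 2 / 4); linarith
  have h2 := Real.exp_pos (-d ^ 2 / 4)
  constructor
  · rw [sub_nonneg, show -d ^ 2 / 4 = -(d ^ 2 / 4) by ring, Real.exp_neg, inv_eq_one_div,
      div_le_div_iff₀ (Real.exp_pos _) (by positivity)]
    have := Real.add_one_le_exp (d ^ 2 / 4)
    linarith
  · have h3 : 4 / (4 + d ^ 2) ≤ 1 := by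
      rw [div_le_one (by positivity)]; linarith
    rcases le_total (d ^ 2) 1 with h | h
    · nlinarith
    · have h4 : 4 / (4 + d ^ 2) * (1 + d ^ 2) ≤ 2 * d ^ 2 := by
        rw [div_mul_eq_mul_div, div_le_iff₀ (by positivity)]
        nlinarith
      nlinarith

/-- the pair function with the weight `4 / (4 + u²)` -/
noncomputable def FW (A B L α : ℝ) : ℝ := ∑ s ∈ Zf riemannZeta A B, ∑ s' ∈ Zf riemannZeta A B,
  (mult riemannZeta s : ℝ) * (mult riemannZeta s' : ℝ) *
    (Real.cos (α * (L * (s.im - s'.im))) * (4 / (4 + (s.im - s'.im) ^ 2)))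

lemma FW_cont (A B L : ℝ) : Continuous (FW A B L) := by
  unfold FW
  refine continuous_finsetSum _ fun s _ => continuous_finsetSum _ fun s' _ => ?_
  fun_prop

lemma FW_int (A B L μ b : ℝ) : ∫ α in (b - μ)..(b + μ), (1 - |α - b| / μ) * FW A B L α =
    ∑ s ∈ Zf riemannZeta A B, ∑ s' ∈ Zf riemannZeta A B,
      (mult riemannZeta s : ℝ) * (mult riemannZeta s' : ℝ) *
      (Real.cos (b * (L * (s.im - s'.im))) * Ph μ (L * (s.im - s'.im)) *
        (4 / (4 + (s.im - s'.im) ^ 2))) := by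
  unfold FW
  simp_rw [Finset.mul_sum]
  have hc : ∀ s s' : ℂ, Continuous fun α : ℝ => (1 - |α - b| / μ) * ((mult riemannZeta s : ℝ) *
      (mult riemannZeta s' : ℝ) *
        (Real.cos (α * (L * (s.im - s'.im))) * (4 / (4 + (s.im - s'.im) ^ 2)))) := by
    intro s s'
    fun_prop
  rw [intervalIntegral.integral_finsetSum]
  swap
  · intro s _
    exact (continuous_finsetSum _ fun s' _ => hc s s').intervalIntegrable _ _
  refine Finset.sum_congr rfl fun s _ => ?_
  rw [intervalIntegral.integral_finsetSum]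
  swap
  · intro s' _
    exact (hc s s').intervalIntegrable _ _
  refine Finset.sum_congr rfl fun s' _ => ?_
  rw [← Ph_shift, ← intervalIntegral.integral_mul_const, ← intervalIntegral.integral_const_mul]
  refine intervalIntegral.integral_congr fun α _ => ?_
  ring

/-- windows of the weighted pair function -/
theorem fej_two (hRH : RiemannHypothesis) : ∃ C : ℝ, 0 < C ∧ ∀ T : ℝ, 10 ≤ T → ∀ A B : ℝ, T ≤ A →
    B ≤ 4 * T → ∀ μ L : ℝ, 0 < μ → 0 < L → ∀ b : ℝ,
    2 * μ * NN riemannZeta A B - ((∫ α in (-μ)..μ, (1 - |α| / μ) * JN riemannZeta A B (α * L)) +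
      C / (μ * L ^ 2) * Real.log T * NN riemannZeta A B) ≤
      ∫ α in (b - μ)..(b + μ), (1 - |α - b| / μ) * FW A B L α ∧
    ∫ α in (b - μ)..(b + μ), (1 - |α - b| / μ) * FW A B L α ≤
      (∫ α in (-μ)..μ, (1 - |α| / μ) * JN riemannZeta A B (α * L)) +
      C / (μ * L ^ 2) * Real.log T * NN riemannZeta A B := by
  obtain ⟨C, hC, h⟩ := pair_weight good_zeta
  refine ⟨8 * C, by positivity, fun T hT A B hA hB μ L hμ hL b => ?_⟩
  have hpi := Real.pi_pos
  have hw := h T hT A B hA hB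
  set W : ℝ := ∑ s ∈ Zf riemannZeta A B, ∑ s' ∈ Zf riemannZeta A B,
      (mult riemannZeta s : ℝ) * (mult riemannZeta s' : ℝ) *
      (Ph μ (L * (s.im - s'.im)) * (4 / (4 + (s.im - s'.im) ^ 2))) with hW
  have hWle : W ≤ (∫ α in (-μ)..μ, (1 - |α| / μ) * JN riemannZeta A B (α * L)) +
      8 * C / (μ * L ^ 2) * Real.log T * NN riemannZeta A B := by
    rw [int_JN hRH (by linarith) (ψ := fun α => 1 - |α| / μ) (by fun_prop)]
    have h1 : W ≤ ∑ s ∈ Zf riemannZeta A B, ∑ s' ∈ Zf riemannZeta A B,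
      ((mult riemannZeta s : ℝ) * (mult riemannZeta s' : ℝ) *
        (RR (fun α => 1 - |α| / μ) μ ((s.im - s'.im) * L / (2 * Real.pi)) *
          Real.exp (-(s.im - s'.im) ^ 2 / 4)) + 8 / (μ * L ^ 2) * ((mult riemannZeta s : ℝ) *
          (mult riemannZeta s' : ℝ) * (1 / (1 + (s.im - s'.im) ^ 2)))) := by
      refine Finset.sum_le_sum fun s _ => Finset.sum_le_sum fun s' _ => ?_
      set d := s.im - s'.im with hd
      have hRR : RR (fun α => 1 - |α| / μ) μ (d * L / (2 * Real.pi)) = Ph μ (L * d) := by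
        unfold RR Ph
        refine intervalIntegral.integral_congr fun α _ => ?_
        simp only
        congr 2
        field_simp
      rw [hRR]
      obtain ⟨w1, w2⟩ := w_aux d
      have h3 := Ph_nonneg hμ (L * d)
      have h4 := Ph_bound hμ (L * d)
      have h5 : Ph μ (L * d) * (4 / (4 + d ^ 2) - Real.exp (-d ^ 2 / 4)) ≤
          8 / (μ * L ^ 2) * (1 / (1 + d ^ 2)) := by
        rw [mul_one_div, le_div_iff₀ (by positivity)]
        calc Ph μ (L * d) * (4 / (4 + d ^ 2) - Real.exp (-d ^ 2 / 4)) * (1 + d ^ 2) =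
            Ph μ (L * d) * ((4 / (4 + d ^ 2) - Real.exp (-d ^ 2 / 4)) * (1 + d ^ 2)) := by ring
          _ ≤ Ph μ (L * d) * (2 * d ^ 2) := by gcongr
          _ = 2 / L ^ 2 * (Ph μ (L * d) * (L * d) ^ 2) := by field_simp
          _ ≤ 2 / L ^ 2 * (4 / μ) := by gcongr
          _ = _ := by field_simp; norm_num
      have h6 : 0 ≤ (mult riemannZeta s : ℝ) * (mult riemannZeta s' : ℝ) := by positivity
      have h7 := mul_le_mul_of_nonneg_left h5 h6
      linarith
    refine h1.trans ?_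
    simp_rw [Finset.sum_add_distrib, ← Finset.mul_sum]
    have h2 := mul_le_mul_of_nonneg_left hw (show 0 ≤ 8 / (μ * L ^ 2) by positivity)
    refine add_le_add le_rfl (h2.trans (le_of_eq (by ring)))
  have hup : |∑ s ∈ Zf riemannZeta A B, ∑ s' ∈ Zf riemannZeta A B,
      (mult riemannZeta s : ℝ) * (mult riemannZeta s' : ℝ) *
      (Real.cos (b * (L * (s.im - s'.im))) * Ph μ (L * (s.im - s'.im)) *
        (4 / (4 + (s.im - s'.im) ^ 2)))| ≤ W := by
    refine (Finset.abs_sum_le_sum_abs _ _).trans (Finset.sum_le_sum fun s _ => ?_)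
    refine (Finset.abs_sum_le_sum_abs _ _).trans (Finset.sum_le_sum fun s' _ => ?_)
    set d := s.im - s'.im with hd
    have h3 := Ph_nonneg hμ (L * d)
    have h4 := Real.abs_cos_le_one (b * (L * d))
    rw [abs_mul, abs_of_nonneg (show 0 ≤ (mult riemannZeta s : ℝ) * (mult riemannZeta s' : ℝ) by
      positivity), abs_mul, abs_mul, abs_of_nonneg h3,
      abs_of_nonneg (show 0 ≤ 4 / (4 + d ^ 2) by positivity)]
    calc (mult riemannZeta s : ℝ) * (mult riemannZeta s' : ℝ) *
        (|Real.cos (b * (L * d))| * Ph μ (L * d) * (4 / (4 + d ^ 2))) ≤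
        (mult riemannZeta s : ℝ) * (mult riemannZeta s' : ℝ) *
        (1 * Ph μ (L * d) * (4 / (4 + d ^ 2))) := by gcongr
      _ = _ := by ring
  have hlow : 2 * μ * NN riemannZeta A B ≤ ∑ s ∈ Zf riemannZeta A B, ∑ s' ∈ Zf riemannZeta A B,
      (mult riemannZeta s : ℝ) * (mult riemannZeta s' : ℝ) *
      ((1 + Real.cos (b * (L * (s.im - s'.im)))) * Ph μ (L * (s.im - s'.im)) *
        (4 / (4 + (s.im - s'.im) ^ 2))) := by
    have hNN : (NN riemannZeta A B : ℝ) = ∑ s ∈ Zf riemannZeta A B, (mult riemannZeta s : ℝ) := by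
      rw [NN_eq good_zeta (by linarith)]; push_cast; rfl
    rw [hNN, Finset.mul_sum]
    refine Finset.sum_le_sum fun s hs => ?_
    have h1 : ∀ s' ∈ Zf riemannZeta A B, 0 ≤ (mult riemannZeta s : ℝ) *
        (mult riemannZeta s' : ℝ) *
      ((1 + Real.cos (b * (L * (s.im - s'.im)))) * Ph μ (L * (s.im - s'.im)) *
        (4 / (4 + (s.im - s'.im) ^ 2))) := by
      intro s' _
      have h3 := Ph_nonneg hμ (L * (s.im - s'.im))
      have h4 := Real.neg_one_le_cos (b * (L * (s.im - s'.im)))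
      have h5 : 0 ≤ 1 + Real.cos (b * (L * (s.im - s'.im))) := by linarith
      positivity
    refine le_trans ?_ (Finset.single_le_sum h1 hs)
    simp only [sub_self, mul_zero, Real.cos_zero, Ph_zero hμ]
    rcases Nat.eq_zero_or_pos (mult riemannZeta s) with h6 | h6
    · rw [h6]; simp
    · have h7 : (1 : ℝ) ≤ (mult riemannZeta s : ℝ) := by exact_mod_cast h6
      have h8 : (mult riemannZeta s : ℝ) * (mult riemannZeta s : ℝ) *
          ((1 + 1) * μ * (4 / (4 + (0 : ℝ) ^ 2))) =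
          2 * μ * (mult riemannZeta s : ℝ) * (mult riemannZeta s : ℝ) := by norm_num; ring
      rw [h8]
      nlinarith [mul_pos hμ (lt_of_lt_of_le one_pos h7)]
  have hsum : ∑ s ∈ Zf riemannZeta A B, ∑ s' ∈ Zf riemannZeta A B,
      (mult riemannZeta s : ℝ) * (mult riemannZeta s' : ℝ) *
      ((1 + Real.cos (b * (L * (s.im - s'.im)))) * Ph μ (L * (s.im - s'.im)) *
        (4 / (4 + (s.im - s'.im) ^ 2))) = W + ∑ s ∈ Zf riemannZeta A B,
        ∑ s' ∈ Zf riemannZeta A B, (mult riemannZeta s : ℝ) * (mult riemannZeta s' : ℝ) *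
      (Real.cos (b * (L * (s.im - s'.im))) * Ph μ (L * (s.im - s'.im)) *
        (4 / (4 + (s.im - s'.im) ^ 2))) := by
    rw [hW]
    simp_rw [← Finset.sum_add_distrib]
    refine Finset.sum_congr rfl fun s _ => Finset.sum_congr rfl fun s' _ => ?_
    ring
  rw [FW_int]
  rw [hsum] at hlow
  have hup2 := abs_le.1 hup
  constructor
  · linarith
  · linarith [hup2.2]

end H370.A4
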