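import Pool.Agent.H345R2.A4.Fej

/-! Final form: the pair function in almost all short intervals. -/

open Complex Filter Topology Set MeasureTheory
open scoped BigOperators ComplexConjugate

namespace H370.A4

open H295SI H370.AS H370.A2

lemma tri1 {μ : ℝ} (hμ : 0 < μ) : ∫ α in (-μ)..μ, (1 - |α| / μ) = μ := by
  have h := Ph_zero hμ
  unfold Ph at h
  simpa using h

lemma tri2 {μ : ℝ} (hμ : 0 < μ) : ∫ α in (-μ)..μ, (1 - |α| / μ) * |α| = μ ^ 2 / 3 := by
  rw [int_sym (fun α => (1 - |α| / μ) * |α|) (by fun_prop) μ]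
  have h1 : ∀ α ∈ Set.uIcc (0 : ℝ) μ, (1 - |α| / μ) * |α| + (1 - |-α| / μ) * |-α| =
      2 * α - 2 / μ * α ^ 2 := by
    intro α hα
    rw [Set.uIcc_of_le hμ.le] at hα
    rw [abs_neg, abs_of_nonneg hα.1]
    ring
  rw [intervalIntegral.integral_congr h1, intervalIntegral.integral_sub
    (f := fun α : ℝ => 2 * α) (g := fun α : ℝ => 2 / μ * α ^ 2)
    ((by fun_prop : Continuous fun α : ℝ => 2 * α).intervalIntegrable _ _)
    ((by fun_prop : Continuous fun α : ℝ => 2 / μ * α ^ 2).intervalIntegrable _ _),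
    intervalIntegral.integral_const_mul, intervalIntegral.integral_const_mul, integral_id,
    integral_pow]
  field_simp
  ring

lemma tri3 {μ L : ℝ} (hμ : 0 < μ) (hL : 0 < L) :
    ∫ α in (-μ)..μ, (1 - |α| / μ) * (L * Real.exp (-(α * L) ^ 2)) ≤ Real.sqrt Real.pi := by
  have h1 : ∫ α in (-μ)..μ, (1 - |α| / μ) * (L * Real.exp (-(α * L) ^ 2)) ≤
      ∫ α in (-μ)..μ, L * Real.exp (-(α * L) ^ 2) := by
    refine intervalIntegral.integral_mono_on (by linarith)
      ((by fun_prop : Continuous fun α : ℝ => (1 - |α| / μ) *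
        (L * Real.exp (-(α * L) ^ 2))).intervalIntegrable _ _)
      ((by fun_prop : Continuous fun α : ℝ => L * Real.exp (-(α * L) ^ 2)).intervalIntegrable _ _)
      fun α _ => ?_
    have h2 : 1 - |α| / μ ≤ 1 := by
      have : 0 ≤ |α| / μ := by positivity
      linarith
    have h3 : 0 ≤ L * Real.exp (-(α * L) ^ 2) := by positivity
    nlinarith
  refine h1.trans ?_
  rw [intervalIntegral.integral_const_mul]
  have h2 := intervalIntegral.mul_integral_comp_mul_right (a := -μ) (b := μ)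
    (f := fun v : ℝ => Real.exp (-v ^ 2)) L
  rw [h2, ← nt_gauss, intervalIntegral.integral_of_le (by nlinarith)]
  exact setIntegral_le_integral nt_int0 (Eventually.of_forall fun v => (Real.exp_pos _).le)

lemma I0_le {μ L N ε : ℝ} {f : ℝ → ℝ} (hf : Continuous f) (hμ : 0 < μ) (hμ1 : μ ≤ 1) (hL : 0 < L)
    (hN : 0 ≤ N) (hε : 0 ≤ ε) (h : ∀ α, |α| ≤ μ → f α ≤ N * (L * Real.exp (-(α * L) ^ 2) /
      Real.sqrt Real.pi + |α|) + ε * N * (1 + L * Real.exp (-(α * L) ^ 2))) :
    ∫ α in (-μ)..μ, (1 - |α| / μ) * f α ≤ N * (1 + μ ^ 2 / 3 + 3 * ε) := by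
  have hpi := Real.pi_pos
  set s := Real.sqrt Real.pi with hs
  have hs0 : 0 < s := Real.sqrt_pos.2 hpi
  have hs2 : s ≤ 2 := by
    rw [hs, Real.sqrt_le_left (by norm_num)]
    linarith [Real.pi_lt_four]
  have c1 : Continuous fun α : ℝ => (1 - |α| / μ) * (L * Real.exp (-(α * L) ^ 2)) := by fun_prop
  have c2 : Continuous fun α : ℝ => (1 - |α| / μ) * |α| := by fun_prop
  have c3 : Continuous fun α : ℝ => (1 - |α| / μ) := by fun_prop
  have h1 : ∫ α in (-μ)..μ, (1 - |α| / μ) * f α ≤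
      ∫ α in (-μ)..μ, ((N / s + ε * N) * ((1 - |α| / μ) * (L * Real.exp (-(α * L) ^ 2))) +
        N * ((1 - |α| / μ) * |α|) + ε * N * (1 - |α| / μ)) := by
    refine intervalIntegral.integral_mono_on (by linarith)
      ((c3.mul hf).intervalIntegrable _ _)
      ((((c1.const_mul _).add (c2.const_mul _)).add (c3.const_mul _)).intervalIntegrable _ _)
      fun α hα => ?_
    have h2 : |α| ≤ μ := abs_le.2 hα
    have h3 : 0 ≤ 1 - |α| / μ := by
      rw [sub_nonneg, div_le_one hμ]; exact h2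
    refine (mul_le_mul_of_nonneg_left (h α h2) h3).trans (le_of_eq ?_)
    ring
  refine h1.trans ?_
  rw [intervalIntegral.integral_add
    (f := fun α : ℝ => (N / s + ε * N) * ((1 - |α| / μ) * (L * Real.exp (-(α * L) ^ 2))) +
      N * ((1 - |α| / μ) * |α|)) (g := fun α : ℝ => ε * N * (1 - |α| / μ))
    ((by fun_prop : Continuous fun α : ℝ => (N / s + ε * N) * ((1 - |α| / μ) *
      (L * Real.exp (-(α * L) ^ 2))) + N * ((1 - |α| / μ) * |α|)).intervalIntegrable _ _)
    ((by fun_prop : Continuous fun α : ℝ => ε * N * (1 - |α| / μ)).intervalIntegrable _ _),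
    intervalIntegral.integral_add
    (f := fun α : ℝ => (N / s + ε * N) * ((1 - |α| / μ) * (L * Real.exp (-(α * L) ^ 2))))
    (g := fun α : ℝ => N * ((1 - |α| / μ) * |α|))
    ((by fun_prop : Continuous fun α : ℝ => (N / s + ε * N) * ((1 - |α| / μ) *
      (L * Real.exp (-(α * L) ^ 2)))).intervalIntegrable _ _)
    ((by fun_prop : Continuous fun α : ℝ => N * ((1 - |α| / μ) * |α|)).intervalIntegrable _ _),
    intervalIntegral.integral_const_mul, intervalIntegral.integral_const_mul,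
    intervalIntegral.integral_const_mul, tri1 hμ, tri2 hμ]
  have h4 := tri3 hμ hL
  rw [← hs] at h4
  calc (N / s + ε * N) * (∫ α in (-μ)..μ, (1 - |α| / μ) * (L * Real.exp (-(α * L) ^ 2))) +
        N * (μ ^ 2 / 3) + ε * N * μ ≤ (N / s + ε * N) * s + N * (μ ^ 2 / 3) + ε * N * 1 := by gcongr
    _ = N + N * (μ ^ 2 / 3) + ε * N * (1 + s) := by field_simp; ring
    _ ≤ N + N * (μ ^ 2 / 3) + ε * N * (1 + 2) := by gcongr
    _ = _ := by ring

/-- the pair function in almost all short intervals -/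
theorem almost_F (hRH : RiemannHypothesis) (η0 μ ε : ℝ) (hη0 : 0 < η0)
    (hη1 : η0 < 1) (hμ : 0 < μ) (hgap : 2 * μ < 1 + η0) (hε : 0 < ε) :
    ∃ δ : ℝ, 0 < δ ∧ ∃ T0 : ℝ, 10 ≤ T0 ∧ ∀ T : ℝ, T0 ≤ T → ∀ H : ℝ,
      T ^ η0 ≤ H → H ≤ T / 8 →
      volume {t : ℝ | t ∈ Set.Icc T (2 * T) ∧
        ¬ ((∀ α : ℝ, |α| ≤ μ → |JN riemannZeta t (t + H) (α * Real.log T) -
            (H * Real.log T / (2 * Real.pi)) * (Real.log T * Real.exp (-(α * Real.log T) ^ 2) /
              Real.sqrt Real.pi + |α|)| ≤ ε * (H * Real.log T / (2 * Real.pi)) *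
              (1 + Real.log T * Real.exp (-(α * Real.log T) ^ 2))) ∧
          ∀ b : ℝ, (H * Real.log T / (2 * Real.pi)) * (2 * μ - 1 - μ ^ 2 / 3 - ε) ≤
            ∫ α in (b - μ)..(b + μ), (1 - |α - b| / μ) * FW t (t + H) (Real.log T) α ∧
            ∫ α in (b - μ)..(b + μ), (1 - |α - b| / μ) * FW t (t + H) (Real.log T) α ≤
            (H * Real.log T / (2 * Real.pi)) * (1 + μ ^ 2 / 3 + ε))} ≤
        ENNReal.ofReal (T ^ (1 - δ)) := by
  have hpi := Real.pi_pos
  set ε' : ℝ := min (ε / 10) 1 with hε'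
  have hε'0 : 0 < ε' := lt_min (by positivity) one_pos
  have hε'1 : ε' ≤ 1 := min_le_right _ _
  have hε'2 : ε' ≤ ε / 10 := min_le_left _ _
  have hμ1 : μ ≤ 1 := by linarith
  obtain ⟨δ, hδ, T0, hT0, h⟩ := almost_pt hRH η0 μ ε' hη0 hη1 hμ hgap hε'0
  obtain ⟨C, hC, hfej⟩ := fej_two hRH
  obtain ⟨T1, hT1⟩ := (Real.tendsto_log_atTop.eventually_ge_atTop
    (2 * C / μ / (ε / 2) + 1)).exists_forall_of_atTop
  refine ⟨δ, hδ, max T0 T1, hT0.trans (le_max_left _ _), fun T hT H hH1 hH2 =>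
    (measure_mono ?_).trans (h T ((le_max_left _ _).trans hT) H hH1 hH2)⟩
  rintro t ⟨ht1, ht2⟩
  refine ⟨ht1, fun hcon => ht2 ?_⟩
  have hT10 : 10 ≤ T := (hT0.trans (le_max_left _ _)).trans hT
  have hTpos : 0 < T := by linarith
  have hLT := hT1 T ((le_max_right _ _).trans hT)
  have hHpos : 0 < H := lt_of_lt_of_le (Real.rpow_pos_of_pos hTpos _) hH1
  set L := Real.log T with hL
  have hLpos : 0 < L := Real.log_pos (by linarith)
  set N : ℝ := H * L / (2 * Real.pi) with hN
  have hN0 : 0 < N := by positivity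
  obtain ⟨hNN, hpt⟩ := hcon
  have hJe : ∀ α : ℝ, |α| ≤ μ → |JN riemannZeta t (t + H) (α * L) -
      N * (L * Real.exp (-(α * L) ^ 2) / Real.sqrt Real.pi + |α|)| ≤ ε' * N *
              (1 + L * Real.exp (-(α * L) ^ 2)) := by
    intro α hα
    have h1 := hpt (|α| * L) (by positivity) (by gcongr)
    have e1 : JN riemannZeta t (t + H) (|α| * L) = JN riemannZeta t (t + H) (α * L) := by
      rcases abs_cases α with ⟨h2, -⟩ | ⟨h2, -⟩
      · rw [h2]
      · rw [h2, JN_rh hRH (by linarith [ht1.1]), JN_rh hRH (by linarith [ht1.1])]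
        refine Finset.sum_congr rfl fun s _ => Finset.sum_congr rfl fun s' _ => ?_
        rw [show -α * L * (s.im - s'.im) = -(α * L * (s.im - s'.im)) by ring, Real.cos_neg]
    have e2 : (|α| * L) ^ 2 = (α * L) ^ 2 := by rw [mul_pow, mul_pow, sq_abs]
    have e3 : MT L (|α| * L) = L * Real.exp (-(α * L) ^ 2) / Real.sqrt Real.pi + |α| := by
      unfold MT
      rw [e2]
      field_simp
    rw [e1, e2, e3] at h1
    exact h1
  refine ⟨fun α hα => (hJe α hα).trans ?_, fun b => ?_⟩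
  · have : ε' ≤ ε := by linarith
    gcongr
  · have hJc : Continuous fun α : ℝ => JN riemannZeta t (t + H) (α * L) := by
      unfold JN
      exact ((JJ_cont good_zeta (by linarith [ht1.1])).comp (by fun_prop)).div_const _
    have hI := I0_le hJc hμ hμ1 hLpos hN0.le hε'0.le (fun α hα => by
      have := (abs_le.1 (hJe α hα)).2
      linarith)
    obtain ⟨f1, f2⟩ := hfej T hT10 t (t + H) ht1.1 (by linarith [ht1.2]) μ L hμ hLpos b
    obtain ⟨n1, n2⟩ := abs_le.1 hNN
    have herr : C / (μ * L ^ 2) * L * (NN riemannZeta t (t + H) : ℝ) ≤ N * (ε / 2) := by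
      have h1 : (NN riemannZeta t (t + H) : ℝ) ≤ 2 * N := by nlinarith
      have h2 : 2 * C / μ / (ε / 2) ≤ L := by linarith
      rw [div_div, div_le_iff₀ (by positivity)] at h2
      calc C / (μ * L ^ 2) * L * (NN riemannZeta t (t + H) : ℝ) ≤
          C / (μ * L ^ 2) * L * (2 * N) := by gcongr
        _ = N * (2 * C / (μ * L)) := by field_simp
        _ ≤ N * (ε / 2) := by
            apply mul_le_mul_of_nonneg_left _ hN0.le
            rw [div_le_iff₀ (by positivity)]
            linarith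
    rw [← hL] at f1 f2
    have hNε : N * ε' ≤ N * (ε / 10) := by gcongr
    have hNμ : 0 ≤ N * ε' * μ := by positivity
    have hNμ2 : N * ε' * μ ≤ N * ε' * 1 := by gcongr
    constructor
    · refine le_trans ?_ f1
      have h3 : 2 * μ * (N - ε' * N) ≤ 2 * μ * (NN riemannZeta t (t + H) : ℝ) := by
        gcongr; linarith
      nlinarith
    · refine f2.trans ?_
      nlinarith

end H370.A4
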