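import Pool.Agent.H345R2.A4.Pt
import Pool.Agent.H345R2.A2.Main2

/-! The pointwise estimate in almost all short intervals. -/

open Complex Filter Topology Set MeasureTheory
open scoped BigOperators ComplexConjugate

namespace H370.A4

open H295SI H370.AS H370.A2

lemma exp_lip {u v : ℝ} (hv : 0 ≤ v) (h1 : v ≤ u) (h2 : u ≤ v + 1) :
    0 ≤ Real.exp (-v ^ 2) - Real.exp (-u ^ 2) ∧
    Real.exp (-v ^ 2) - Real.exp (-u ^ 2) ≤ 2 * (u - v) := by
  have h3 : Real.exp (-u ^ 2) = Real.exp (-v ^ 2) * Real.exp (-(u ^ 2 - v ^ 2)) := by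
    rw [← Real.exp_add]; congr 1; ring
  have h4 : -(u ^ 2 - v ^ 2) + 1 ≤ Real.exp (-(u ^ 2 - v ^ 2)) := Real.add_one_le_exp _
  have hE := Real.exp_pos (-v ^ 2)
  have hE1 : Real.exp (-v ^ 2) ≤ 1 := Real.exp_le_one_iff.2 (by nlinarith)
  constructor
  · rw [sub_nonneg]
    apply Real.exp_le_exp.2
    nlinarith
  · have h5 : 2 * v * Real.exp (-v ^ 2) ≤ 1 := by
      have h6 := Real.add_one_le_exp (v ^ 2)
      rw [Real.exp_neg, ← div_eq_mul_inv, div_le_one (Real.exp_pos _)]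
      nlinarith [sq_nonneg (v - 1)]
    calc Real.exp (-v ^ 2) - Real.exp (-u ^ 2) =
        Real.exp (-v ^ 2) * (1 - Real.exp (-(u ^ 2 - v ^ 2))) := by rw [h3]; ring
      _ ≤ Real.exp (-v ^ 2) * (u ^ 2 - v ^ 2) := by
          apply mul_le_mul_of_nonneg_left _ hE.le
          linarith
      _ = (u - v) * (2 * v * Real.exp (-v ^ 2) + (u - v) * Real.exp (-v ^ 2)) := by ring
      _ ≤ (u - v) * (1 + 1 * 1) := by
          have : 0 ≤ u - v := by linarith
          gcongr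
          linarith
      _ = _ := by ring

lemma wt_aux (x : ℝ) : |x| * Real.exp (-x ^ 2 / 4) ≤ 16 * (1 / (1 + x ^ 2)) := by
  have h1 := Real.quadratic_le_exp_of_nonneg (show 0 ≤ x ^ 2 / 4 by positivity)
  have h2 : -x ^ 2 / 4 = -(x ^ 2 / 4) := by ring
  rw [h2, Real.exp_neg, ← div_eq_mul_inv, mul_one_div, div_le_div_iff₀ (Real.exp_pos _)
    (by positivity)]
  have h3 : |x| ≤ (1 + x ^ 2) / 2 := by
    have := sq_nonneg (|x| - 1)
    have h4 : |x| ^ 2 = x ^ 2 := sq_abs x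
    nlinarith
  have h4 : 0 ≤ x ^ 2 := sq_nonneg x
  nlinarith [mul_le_mul_of_nonneg_right h3 (show 0 ≤ 1 + x ^ 2 by positivity)]

lemma JN_lip (hRH : RiemannHypothesis) : ∃ C : ℝ, 0 < C ∧ ∀ T : ℝ, 10 ≤ T → ∀ A B : ℝ, T ≤ A →
    B ≤ 4 * T → ∀ u v : ℝ, |JN riemannZeta A B u - JN riemannZeta A B v| ≤
      C * Real.log T * NN riemannZeta A B * |u - v| := by
  obtain ⟨C, hC, h⟩ := pair_weight good_zeta
  refine ⟨16 * C, by positivity, fun T hT A B hA hB u v => ?_⟩
  have hw := h T hT A B hA hB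
  rw [JN_rh hRH (by linarith), JN_rh hRH (by linarith), ← Finset.sum_sub_distrib]
  refine (Finset.abs_sum_le_sum_abs _ _).trans ?_
  have h1 : ∀ s ∈ Zf riemannZeta A B, |∑ s' ∈ Zf riemannZeta A B,
      (mult riemannZeta s : ℝ) * (mult riemannZeta s' : ℝ) *
        (Real.cos (u * (s.im - s'.im)) * Real.exp (-(s.im - s'.im) ^ 2 / 4)) -
      ∑ s' ∈ Zf riemannZeta A B, (mult riemannZeta s : ℝ) * (mult riemannZeta s' : ℝ) *
        (Real.cos (v * (s.im - s'.im)) * Real.exp (-(s.im - s'.im) ^ 2 / 4))| ≤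
      (16 * |u - v|) * ∑ s' ∈ Zf riemannZeta A B,
        (mult riemannZeta s : ℝ) * (mult riemannZeta s' : ℝ) *
      (1 / (1 + (s.im - s'.im) ^ 2)) := by
    intro s _
    rw [← Finset.sum_sub_distrib, Finset.mul_sum]
    refine (Finset.abs_sum_le_sum_abs _ _).trans (Finset.sum_le_sum fun s' _ => ?_)
    set d := s.im - s'.im
    rw [← mul_sub, ← sub_mul, abs_mul, abs_of_nonneg (show 0 ≤
      (mult riemannZeta s : ℝ) * (mult riemannZeta s' : ℝ) by positivity), abs_mul,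
      abs_of_pos (Real.exp_pos _)]
    have h2 : |Real.cos (u * d) - Real.cos (v * d)| ≤ |u - v| * |d| := by
      have h3 := Real.abs_cos_sub_cos_le (u * d) (v * d)
      rwa [← sub_mul, abs_mul] at h3
    have h4 := wt_aux d
    calc (mult riemannZeta s : ℝ) * (mult riemannZeta s' : ℝ) *
        (|Real.cos (u * d) - Real.cos (v * d)| * Real.exp (-d ^ 2 / 4)) ≤
        (mult riemannZeta s : ℝ) * (mult riemannZeta s' : ℝ) *
        (|u - v| * |d| * Real.exp (-d ^ 2 / 4)) := by gcongr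
      _ = (mult riemannZeta s : ℝ) * (mult riemannZeta s' : ℝ) *
        (|u - v| * (|d| * Real.exp (-d ^ 2 / 4))) := by ring
      _ ≤ (mult riemannZeta s : ℝ) * (mult riemannZeta s' : ℝ) *
        (|u - v| * (16 * (1 / (1 + d ^ 2)))) := by gcongr
      _ = _ := by ring
  refine (Finset.sum_le_sum h1).trans ?_
  rw [← Finset.mul_sum]
  calc 16 * |u - v| * ∑ i ∈ Zf riemannZeta A B, ∑ s' ∈ Zf riemannZeta A B,
        (mult riemannZeta i : ℝ) * (mult riemannZeta s' : ℝ) * (1 / (1 + (i.im - s'.im) ^ 2)) ≤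
      16 * |u - v| * (C * Real.log T * NN riemannZeta A B) := by gcongr
    _ = _ := by ring

lemma MT_lip {LT u v : ℝ} (hLT : 1 ≤ LT) (hv : 0 ≤ v) (h1 : v ≤ u) (h2 : u ≤ v + 1) :
    |MT LT u - MT LT v| ≤ 3 * LT * (u - v) := by
  obtain ⟨h3, h4⟩ := exp_lip hv h1 h2
  have hspi1 : 1 ≤ Real.sqrt Real.pi := by
    rw [Real.one_le_sqrt]; linarith [Real.pi_gt_three]
  have hd : 0 ≤ u - v := by linarith
  have e : MT LT u - MT LT v = -(LT * (Real.exp (-v ^ 2) - Real.exp (-u ^ 2)) /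
      Real.sqrt Real.pi) + (u - v) / LT := by
    unfold MT; ring
  have h5 : LT * (Real.exp (-v ^ 2) - Real.exp (-u ^ 2)) / Real.sqrt Real.pi ≤
      LT * (2 * (u - v)) := by
    refine (div_le_self (by positivity) hspi1).trans ?_
    gcongr
  have h6 : (u - v) / LT ≤ LT * (u - v) := by
    rw [div_le_iff₀ (by linarith)]
    nlinarith [mul_nonneg hd (show 0 ≤ LT ^ 2 - 1 by nlinarith)]
  have h7 : 0 ≤ LT * (Real.exp (-v ^ 2) - Real.exp (-u ^ 2)) / Real.sqrt Real.pi := by positivity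
  have h8 : 0 ≤ (u - v) / LT := by positivity
  rw [e, abs_le]
  constructor
  · nlinarith
  · nlinarith

/-- pointwise, on the Riemann hypothesis -/
theorem almost_pt (hRH : RiemannHypothesis) (η0 μ ε : ℝ) (hη0 : 0 < η0)
    (hη1 : η0 < 1) (hμ : 0 < μ) (hgap : 2 * μ < 1 + η0) (hε : 0 < ε) :
    ∃ δ : ℝ, 0 < δ ∧ ∃ T0 : ℝ, 10 ≤ T0 ∧ ∀ T : ℝ, T0 ≤ T → ∀ H : ℝ,
      T ^ η0 ≤ H → H ≤ T / 8 →
      volume {t : ℝ | t ∈ Set.Icc T (2 * T) ∧
        ¬ (|(NN riemannZeta t (t + H) : ℝ) - H * Real.log T / (2 * Real.pi)| ≤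
            ε * (H * Real.log T / (2 * Real.pi)) ∧
          ∀ u : ℝ, 0 ≤ u → u ≤ μ * Real.log T →
          |JN riemannZeta t (t + H) u - (H * Real.log T / (2 * Real.pi)) * MT (Real.log T) u| ≤
            ε * (H * Real.log T / (2 * Real.pi)) * (1 + Real.log T * Real.exp (-u ^ 2)))} ≤
        ENNReal.ofReal (T ^ (1 - δ)) := by
  have hpi := Real.pi_pos
  set ε' : ℝ := min (ε / 2) 1 with hε'
  have hε'0 : 0 < ε' := lt_min (by positivity) one_pos
  have hε'1 : ε' ≤ 1 := min_le_right _ _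
  have hε'2 : ε' ≤ ε / 2 := min_le_left _ _
  obtain ⟨lam, hlam1, hlam2⟩ : ∃ lam : ℝ, μ < lam ∧ 2 * lam < 1 + η0 :=
    ⟨(μ + (1 + η0) / 2) / 2, by linarith, by linarith⟩
  have hlam0 : 0 < lam := hμ.trans hlam1
  have hlamle : lam ≤ 1 := by linarith
  obtain ⟨κ, hκ, hEE⟩ := EE_small η0 lam hη0 hη1 hlam0 hlam2
  obtain ⟨T1, hT1, hEE⟩ := hEE κ hκ le_rfl
  obtain ⟨Cl, hCl, hlip⟩ := JN_lip hRH
  set r : ℝ := η0 / 2 with hr
  have hr0 : 0 < r := by positivity
  have hr1 : r < 1 := by rw [hr]; linarith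
  have hrη : r < η0 := by rw [hr]; linarith
  obtain ⟨θ, hθ0, hθ1, T2, hT2, hm⟩ := pt_two good_zeta lamC_norm (fun s hs _ => ld_zeta s hs)
    le_rfl r lam (κ / 2) ε' hr0 hr1 hlam0 hlamle (by linarith) (by positivity) hε'0
  -- eventual facts
  have ev1 : ∀ᶠ T : ℝ in atTop, (2 * T) ^ r ≤ T ^ η0 := by
    have h1 : ∀ᶠ T : ℝ in atTop, (2 : ℝ) ^ r ≤ T ^ (η0 - r) :=
      (tendsto_rpow_atTop (by linarith)).eventually_ge_atTop _
    filter_upwards [h1, eventually_gt_atTop 0] with T h1 h2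
    calc (2 * T) ^ r = 2 ^ r * T ^ r := Real.mul_rpow (by norm_num) h2.le
      _ ≤ T ^ (η0 - r) * T ^ r := by gcongr
      _ = T ^ η0 := by rw [← Real.rpow_add h2]; congr 1; ring
  have ev2 : ∀ᶠ T : ℝ in atTop, (lam + κ / 2) * Real.log 2 / (κ / 2) ≤ Real.log T :=
    Real.tendsto_log_atTop.eventually_ge_atTop _
  have ev3 : ∀ᶠ T : ℝ in atTop,
      Real.sqrt 2 * Real.exp (-((θ / 4) ^ 2 * T ^ (2 * κ)) / 4) ≤ θ / (1 + θ) := by
    have h1 : Tendsto (fun T : ℝ => Real.sqrt 2 * Real.exp (-((θ / 4) ^ 2 * T ^ (2 * κ)) / 4))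
        atTop (𝓝 (Real.sqrt 2 * 0)) := by
      apply Tendsto.const_mul
      apply Real.tendsto_exp_atBot.comp
      have h2 : Tendsto (fun T : ℝ => (θ / 4) ^ 2 / 4 * T ^ (2 * κ)) atTop atTop :=
        (tendsto_rpow_atTop (by positivity)).const_mul_atTop (by positivity)
      refine (tendsto_neg_atTop_atBot.comp h2).congr fun T => ?_
      simp only [Function.comp]
      ring
    rw [mul_zero] at h1
    exact h1.eventually (ge_mem_nhds (by positivity))
  have ev4 : ∀ᶠ T : ℝ in atTop, (μ * (Real.log T) ^ 3 + 1) * 2 ≤ T ^ κ := by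
    have h1 : (fun T : ℝ => (Real.log T) ^ 3) =o[atTop] fun T : ℝ => T ^ κ :=
      (isLittleO_log_rpow_atTop (r := κ / 3) (by positivity)).pow
        (by norm_num : 0 < 3) |>.trans_eventuallyEq
        (by
          filter_upwards [eventually_gt_atTop 0] with T hT
          rw [← Real.rpow_natCast, ← Real.rpow_mul hT.le]
          congr 1
          push_cast
          ring)
    have h3 := h1.bound (show (0 : ℝ) < 1 / (4 * (μ + 1)) by positivity)
    have h4 : ∀ᶠ T : ℝ in atTop, 4 ≤ T ^ κ := (tendsto_rpow_atTop hκ).eventually_ge_atTop _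
    filter_upwards [h3, h4, eventually_ge_atTop 1] with T h3 h4 hT1
    have hl : 0 ≤ Real.log T := Real.log_nonneg hT1
    rw [Real.norm_of_nonneg (by positivity), Real.norm_of_nonneg (by positivity),
      one_div_mul_eq_div, le_div_iff₀ (by positivity)] at h3
    have h5 : 0 ≤ (Real.log T) ^ 3 := by positivity
    nlinarith
  have ev5 : ∀ᶠ T : ℝ in atTop, 2 * Real.log 2 ≤ Real.log T :=
    Real.tendsto_log_atTop.eventually_ge_atTop _
  have ev6 : ∀ᶠ T : ℝ in atTop,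
      (4 * (lam + κ) + 1) * Real.log T ≤ (θ / 4) ^ 2 / 4 * T ^ (2 * κ) := by
    have hpos : 0 < 4 * (lam + κ) + 1 := by positivity
    have h1 := (isLittleO_log_rpow_atTop (show (0 : ℝ) < 2 * κ by positivity)).bound
      (show (0 : ℝ) < (θ / 4) ^ 2 / 4 / (4 * (lam + κ) + 1) by positivity)
    filter_upwards [h1, eventually_ge_atTop 1] with T hT hT1
    have hl : 0 ≤ Real.log T := Real.log_nonneg hT1
    rw [Real.norm_of_nonneg hl, Real.norm_of_nonneg (by positivity)] at hT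
    calc (4 * (lam + κ) + 1) * Real.log T ≤ (4 * (lam + κ) + 1) *
        ((θ / 4) ^ 2 / 4 / (4 * (lam + κ) + 1) * T ^ (2 * κ)) := by gcongr
      _ = _ := by field_simp
  have ev7 : ∀ᶠ T : ℝ in atTop, (1 ≤ Real.log T ∧ lam / (lam - μ) ≤ Real.log T) ∧
      (2 * Cl + 3 + 2) / (ε / 2) ≤ Real.log T :=
    ((Real.tendsto_log_atTop.eventually_ge_atTop _).and
      (Real.tendsto_log_atTop.eventually_ge_atTop _)).and
      (Real.tendsto_log_atTop.eventually_ge_atTop _)
  obtain ⟨T4, hT4⟩ := ((((((ev1.and ev2).and ev3).and ev4).and ev5).and ev6).and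
    ev7).exists_forall_of_atTop
  refine ⟨κ, hκ, max (max 100 T1) (max (2 * T2) T4),
    le_trans (by norm_num) ((le_max_left _ _).trans (le_max_left _ _)),
    fun T hT H hH1 hH2 => ?_⟩
  have hT100 : 100 ≤ T := ((le_max_left _ _).trans (le_max_left _ _)).trans hT
  have hTT1 : T1 ≤ T := ((le_max_right _ _).trans (le_max_left _ _)).trans hT
  have hTT2 : 2 * T2 ≤ T := ((le_max_left _ _).trans (le_max_right _ _)).trans hT
  obtain ⟨⟨⟨⟨⟨⟨e1, e2⟩, e3⟩, e4⟩, e5⟩, e6⟩, ⟨e7, e8⟩, e9⟩ := hT4 T (((le_max_right _ _).trans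
    (le_max_right _ _)).trans hT)
  have hTpos : 0 < T := by linarith
  have hHpos : 0 < H := lt_of_lt_of_le (Real.rpow_pos_of_pos hTpos _) hH1
  have hlogT : 0 < Real.log T := by linarith
  set L : ℝ := Real.log T with hLdef
  set X : ℕ := ⌊T ^ (lam + κ)⌋₊ with hX
  set σ : ℝ := H * T ^ (-κ) with hσ
  have hTκ : 0 < T ^ (-κ) := Real.rpow_pos_of_pos hTpos _
  have hσ0 : 0 < σ := by positivity
  set w : ℝ := θ / 4 * H with hw
  have hw0 : 0 ≤ w := by positivity
  have hw2 : w ≤ H / 2 := by rw [hw]; nlinarith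
  have hexpo : -w ^ 2 / (4 * σ ^ 2) = -((θ / 4) ^ 2 * T ^ (2 * κ)) / 4 := by
    have h1 : T ^ (2 * κ) * (T ^ (-κ)) ^ 2 = 1 := by
      rw [← Real.rpow_natCast, ← Real.rpow_mul hTpos.le, ← Real.rpow_add hTpos]
      have : 2 * κ + -κ * ((2 : ℕ) : ℝ) = 0 := by push_cast; ring
      rw [this, Real.rpow_zero]
    rw [hw, hσ, div_eq_div_iff (by positivity) (by norm_num)]
    have h2 : ((θ / 4) ^ 2 * T ^ (2 * κ)) * (4 * (H * T ^ (-κ)) ^ 2) =
        (θ / 4) ^ 2 * 4 * H ^ 2 * (T ^ (2 * κ) * (T ^ (-κ)) ^ 2) := by ring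
    linear_combination h2 + (θ / 4) ^ 2 * 4 * H ^ 2 * h1
  have hmass : Real.sqrt 2 * Real.exp (-w ^ 2 / (4 * σ ^ 2)) ≤ θ / (1 + θ) := by
    rw [hexpo]; exact e3
  have hmass2 : (X : ℝ) ^ 4 * (Real.sqrt 2 * Real.exp (-w ^ 2 / (4 * σ ^ 2))) ≤ 1 := by
    rw [hexpo]
    have h1 : (X : ℝ) ≤ T ^ (lam + κ) := Nat.floor_le (by positivity)
    have h2 : (X : ℝ) ^ 4 ≤ Real.exp (4 * (lam + κ) * Real.log T) := by
      calc (X : ℝ) ^ 4 ≤ (T ^ (lam + κ)) ^ 4 := by gcongr
        _ = Real.exp (4 * (lam + κ) * Real.log T) := by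
          rw [Real.rpow_def_of_pos hTpos, ← Real.exp_nat_mul]
          congr 1
          push_cast; ring
    have h3 : Real.sqrt 2 ≤ Real.exp (Real.log T) := by
      rw [Real.exp_log hTpos]
      have : Real.sqrt 2 ≤ 2 := by
        rw [Real.sqrt_le_left (by norm_num)]; norm_num
      linarith
    calc (X : ℝ) ^ 4 * (Real.sqrt 2 * Real.exp (-((θ / 4) ^ 2 * T ^ (2 * κ)) / 4)) ≤
        Real.exp (4 * (lam + κ) * Real.log T) * (Real.exp (Real.log T) *
          Real.exp (-((θ / 4) ^ 2 * T ^ (2 * κ)) / 4)) := by gcongr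
      _ = Real.exp ((4 * (lam + κ) + 1) * Real.log T - (θ / 4) ^ 2 / 4 * T ^ (2 * κ)) := by
          rw [← Real.exp_add, ← Real.exp_add]; congr 1; ring
      _ ≤ 1 := Real.exp_le_one_iff.2 (by linarith)
  -- the net
  set M : ℕ := ⌊μ * L ^ 3⌋₊ with hM
  set uj : ℕ → ℝ := fun j => j / L ^ 2 with huj
  set Ej : ℕ → Set ℝ := fun j => {t : ℝ | t ∈ Set.Icc T (2 * T) ∧ H ≤ ∫ x in (t - w)..(t + H + w),
    ‖EE (bb lamC (uj j)) X σ x‖ ^ 2} with hEj
  set E1 : Set ℝ := ⋃ j ∈ Finset.range (M + 1), Ej j with hE1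
  have hEjm : ∀ j, volume (Ej j) ≤ ENNReal.ofReal (2 * T ^ (1 - 2 * κ)) := by
    intro j
    have h1 := hEE T hTT1 H hH1 lamC (fun n => (lamC_norm n).le) (uj j)
    refine (markov (fun x => ‖EE (bb lamC (uj j)) X σ x‖ ^ 2)
      ((EE_cont _ _ _).norm.pow 2) (fun x => by positivity) T H w _ hTpos hHpos hw0
      (by linarith) (by linarith) h1).trans ?_
    apply ENNReal.ofReal_le_ofReal
    have h6 : (H + 2 * w) / H ≤ 2 := by
      rw [div_le_iff₀ hHpos]; linarith
    gcongr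
  have hE1m : volume E1 ≤ ENNReal.ofReal (T ^ (1 - κ)) := by
    calc volume E1 ≤ ∑ j ∈ Finset.range (M + 1), volume (Ej j) :=
          measure_biUnion_finset_le _ _
      _ ≤ ∑ j ∈ Finset.range (M + 1), ENNReal.ofReal (2 * T ^ (1 - 2 * κ)) :=
          Finset.sum_le_sum fun j _ => hEjm j
      _ = ENNReal.ofReal ((M + 1 : ℕ) * (2 * T ^ (1 - 2 * κ))) := by
          rw [Finset.sum_const, Finset.card_range, nsmul_eq_mul,
            ENNReal.ofReal_mul (p := ((M + 1 : ℕ) : ℝ)) (by positivity), ENNReal.ofReal_natCast]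
      _ ≤ _ := by
          apply ENNReal.ofReal_le_ofReal
          have h1 : (M : ℝ) ≤ μ * L ^ 3 := Nat.floor_le (by positivity)
          have h2 : T ^ (1 - κ) = T ^ κ * T ^ (1 - 2 * κ) := by
            rw [← Real.rpow_add hTpos]; congr 1; ring
          have h3 : 0 < T ^ (1 - 2 * κ) := Real.rpow_pos_of_pos hTpos _
          rw [h2]
          push_cast
          calc ((M : ℝ) + 1) * (2 * T ^ (1 - 2 * κ)) = (((M : ℝ) + 1) * 2) * T ^ (1 - 2 * κ) := by
                ring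
            _ ≤ ((μ * L ^ 3 + 1) * 2) * T ^ (1 - 2 * κ) := by gcongr
            _ ≤ _ := by gcongr
  refine (measure_mono ?_).trans hE1m
  set N : ℝ := H * L / (2 * Real.pi) with hN
  have hN0 : 0 < N := by positivity
  -- at the points of the net
  have key : ∀ t : ℝ, t ∈ Set.Icc T (2 * T) → ∀ Tb : ℝ, T / 2 ≤ Tb → Tb ≤ 2 * T →
      Tb + 1 ≤ t → t + H ≤ 2 * Tb - 1 → t ∉ E1 →
      |(NN riemannZeta t (t + H) : ℝ) - N| ≤ ε' * N ∧
      ∀ j : ℕ, j ≤ M → |JN riemannZeta t (t + H) (uj j) - N * MT L (uj j)| ≤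
        ε' * N * (1 + L * Real.exp (-(uj j) ^ 2)) := by
    intro t ht Tb hTb1 hTb2 hTb3 hTb4 hE1t
    have hTb0 : 0 < Tb := by linarith
    have hlogb : Real.log Tb ≤ L + Real.log 2 := by
      rw [hLdef, ← Real.log_mul hTpos.ne' (by norm_num)]
      exact Real.log_le_log hTb0 (by linarith)
    have hlogb2 : L ≤ Real.log Tb + Real.log 2 := by
      rw [hLdef, ← Real.log_mul hTb0.ne' (by norm_num)]
      exact Real.log_le_log hTpos (by linarith)
    have hl2 : Real.log 2 ≤ 1 := by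
      have := Real.log_two_lt_d9; linarith
    have hadd : t + H - t = H := by ring
    have h := hm Tb (by linarith) L (by rw [abs_le]; constructor <;> linarith)
      t (t + H) hTb3 hTb4 ?_ ?_ σ w X hσ0 hw0 ?_ hmass hmass2 ?_
    · rw [hadd] at h
      refine ⟨h.1, fun j hj => ?_⟩
      refine h.2 (uj j) (by positivity) ?_ ?_
      · have h1 : (j : ℝ) ≤ μ * L ^ 3 := le_trans (by exact_mod_cast hj) (Nat.floor_le (by positivity))
        have h2 : uj j ≤ μ * L := by
          simp only [huj]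
          rw [div_le_iff₀ (by positivity)]
          calc (j : ℝ) ≤ μ * L ^ 3 := h1
            _ = _ := by ring
        have h3 : μ * L ≤ lam * (L - 1) := by
          rw [div_le_iff₀ (by linarith)] at e8
          nlinarith
        calc uj j ≤ μ * L := h2
          _ ≤ lam * (L - 1) := h3
          _ ≤ lam * Real.log Tb := by gcongr; linarith
      · by_contra hcon
        push Not at hcon
        apply hE1t
        rw [hE1]
        simp only [Set.mem_iUnion]
        exact ⟨j, Finset.mem_range.2 (by omega), ht, hcon.le⟩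
    · rw [hadd]
      calc Tb ^ r ≤ (2 * T) ^ r := Real.rpow_le_rpow hTb0.le hTb2 hr0.le
        _ ≤ T ^ η0 := e1
        _ ≤ H := hH1
    · intro s hs _
      rw [rh_line hRH hs]
      norm_num
    · rw [hadd]
    · have h1 : T ^ (lam + κ) ≤ (X : ℝ) + 1 := (Nat.lt_floor_add_one _).le
      have h2 : (lam + κ) * Real.log T ≤ Real.log (X + 1) := by
        rw [← Real.log_rpow hTpos]
        exact Real.log_le_log (Real.rpow_pos_of_pos hTpos _) h1
      refine le_trans ?_ h2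
      rw [div_le_iff₀ (by positivity)] at e2
      rw [← hLdef]
      calc (lam + κ / 2) * Real.log Tb ≤ (lam + κ / 2) * (L + Real.log 2) := by gcongr
        _ = (lam + κ / 2) * L + (lam + κ / 2) * Real.log 2 := by ring
        _ ≤ (lam + κ / 2) * L + L * (κ / 2) := by linarith
        _ = (lam + κ) * L := by ring
  -- conclusion
  have fin : ∀ t : ℝ, t ∈ Set.Icc T (2 * T) →
      (|(NN riemannZeta t (t + H) : ℝ) - N| ≤ ε' * N ∧
      ∀ j : ℕ, j ≤ M → |JN riemannZeta t (t + H) (uj j) - N * MT L (uj j)| ≤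
        ε' * N * (1 + L * Real.exp (-(uj j) ^ 2))) →
      (|(NN riemannZeta t (t + H) : ℝ) - N| ≤ ε * N ∧
          ∀ u : ℝ, 0 ≤ u → u ≤ μ * L →
          |JN riemannZeta t (t + H) u - N * MT L u| ≤ ε * N * (1 + L * Real.exp (-u ^ 2))) := by
    rintro t ht ⟨h1, h2⟩
    refine ⟨h1.trans (by gcongr; linarith), fun u hu0 hu1 => ?_⟩
    set j : ℕ := ⌊u * L ^ 2⌋₊ with hj
    have hjM : j ≤ M := by
      rw [hj, hM]
      apply Nat.floor_le_floor
      calc u * L ^ 2 ≤ μ * L * L ^ 2 := by gcongr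
        _ = _ := by ring
    have hj1 : (j : ℝ) ≤ u * L ^ 2 := Nat.floor_le (by positivity)
    have hj2 : u * L ^ 2 < j + 1 := Nat.lt_floor_add_one _
    have hv0 : 0 ≤ uj j := by positivity
    have hv1 : uj j ≤ u := by
      simp only [huj]
      rw [div_le_iff₀ (by positivity)]; exact hj1
    have hv2 : u - uj j ≤ 1 / L ^ 2 := by
      simp only [huj]
      rw [sub_le_iff_le_add, ← add_div, le_div_iff₀ (by positivity)]
      linarith
    have hL2 : 1 / L ^ 2 ≤ 1 := by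
      rw [div_le_one (by positivity)]; exact one_le_pow₀ e7
    have hd0 : 0 ≤ u - uj j := by linarith
    have h3 := h2 j hjM
    have h4 := hlip T (by linarith) t (t + H) ht.1 (by linarith [ht.2]) u (uj j)
    rw [← hLdef, abs_of_nonneg hd0] at h4
    have h5 : (NN riemannZeta t (t + H) : ℝ) ≤ 2 * N := by
      have := (abs_le.1 h1).2
      nlinarith
    have h6 : Cl * L * (NN riemannZeta t (t + H) : ℝ) * (u - uj j) ≤ N * (2 * Cl / L) := by
      calc Cl * L * (NN riemannZeta t (t + H) : ℝ) * (u - uj j) ≤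
          Cl * L * (2 * N) * (1 / L ^ 2) := by gcongr
        _ = _ := by field_simp
    have h7 := MT_lip (LT := L) (u := u) (v := uj j) e7 hv0 hv1 (by linarith)
    have h8 : N * |MT L u - MT L (uj j)| ≤ N * (3 / L) := by
      apply mul_le_mul_of_nonneg_left _ hN0.le
      refine h7.trans ?_
      calc 3 * L * (u - uj j) ≤ 3 * L * (1 / L ^ 2) := by gcongr
        _ = 3 / L := by field_simp
    obtain ⟨h9, h10⟩ := exp_lip hv0 hv1 (by linarith)
    have h11 : ε' * N * (1 + L * Real.exp (-(uj j) ^ 2)) ≤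
        ε / 2 * N * (1 + L * Real.exp (-u ^ 2)) + N * (2 / L) := by
      have h12 : L * Real.exp (-(uj j) ^ 2) ≤ L * Real.exp (-u ^ 2) + 2 / L := by
        have h13 : Real.exp (-(uj j) ^ 2) ≤ Real.exp (-u ^ 2) + 2 * (1 / L ^ 2) := by linarith
        calc L * Real.exp (-(uj j) ^ 2) ≤ L * (Real.exp (-u ^ 2) + 2 * (1 / L ^ 2)) := by gcongr
          _ = _ := by field_simp
      calc ε' * N * (1 + L * Real.exp (-(uj j) ^ 2)) ≤
          ε' * N * (1 + (L * Real.exp (-u ^ 2) + 2 / L)) := by gcongr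
        _ = ε' * N * (1 + L * Real.exp (-u ^ 2)) + ε' * (N * (2 / L)) := by ring
        _ ≤ ε / 2 * N * (1 + L * Real.exp (-u ^ 2)) + 1 * (N * (2 / L)) := by gcongr
        _ = _ := by ring
    have h14 : N * (2 * Cl / L) + N * (3 / L) + N * (2 / L) ≤ ε / 2 * N := by
      rw [div_le_iff₀ (by positivity)] at e9
      have h15 : N * (2 * Cl / L) + N * (3 / L) + N * (2 / L) = N * ((2 * Cl + 3 + 2) / L) := by
        ring
      rw [h15, mul_comm (ε / 2) N]
      apply mul_le_mul_of_nonneg_left _ hN0.le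
      rw [div_le_iff₀ hlogT]
      linarith
    have h16 : JN riemannZeta t (t + H) u - N * MT L u =
        (JN riemannZeta t (t + H) u - JN riemannZeta t (t + H) (uj j)) +
        (JN riemannZeta t (t + H) (uj j) - N * MT L (uj j)) -
          N * (MT L u - MT L (uj j)) := by ring
    have h17 : |N * (MT L u - MT L (uj j))| = N * |MT L u - MT L (uj j)| := by
      rw [abs_mul, abs_of_pos hN0]
    have h18 : |JN riemannZeta t (t + H) u - N * MT L u| ≤
        |JN riemannZeta t (t + H) u - JN riemannZeta t (t + H) (uj j)| +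
        |JN riemannZeta t (t + H) (uj j) - N * MT L (uj j)| +
          |N * (MT L u - MT L (uj j))| := by
      rw [h16]
      exact (abs_sub _ _).trans (add_le_add (abs_add_le _ _) le_rfl)
    rw [h17] at h18
    have h19 : 0 ≤ ε / 2 * N * (L * Real.exp (-u ^ 2)) := by positivity
    nlinarith
  rintro t ⟨ht1, ht2⟩
  by_contra hcon
  apply ht2
  rcases le_or_gt t (3 / 2 * T) with h4 | h4
  · exact fin t ht1 (key t ht1 (9 / 10 * T) (by linarith) (by linarith) (by linarith [ht1.1])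
      (by linarith) hcon)
  · exact fin t ht1 (key t ht1 (27 / 20 * T) (by linarith) (by linarith) (by linarith)
      (by linarith [ht1.2]) hcon)

end H370.A4
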