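import Pool.Agent.H345R2.A4.Alg
import Pool.Agent.H345R2.A2.Smooth

/-! The mean square of the zero sum at one frequency, two-sided. -/

open Complex Filter Topology Set MeasureTheory
open scoped BigOperators ComplexConjugate

namespace H370.A4

open H295SI H370.AS H370.A2
open H370.SI (nn_short)

/-- the expected value at frequency `u` -/
noncomputable def MT (LT u : ℝ) : ℝ := LT * Real.exp (-u ^ 2) / Real.sqrt Real.pi + u / LT

theorem pt_two {F : ℂ → ℂ} (hF : GoodL F) {a : ℕ → ℂ}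
    (han : ∀ n, ‖a n‖ = ArithmeticFunction.vonMangoldt n)
    (hld : ∀ s : ℂ, 1 < s.re → 1 ≤ s.im → deriv F s / F s = - ∑' n : ℕ, a n * (n : ℂ) ^ (-s))
    {τ : ℝ} (hτ : 0 ≤ τ) :
    ∀ r lam κ η : ℝ, 0 < r → r < 1 → 0 < lam → lam ≤ 1 → 2 * τ * lam < r → 0 < κ →
    0 < η →
    ∃ θ : ℝ, 0 < θ ∧ θ ≤ 1 ∧ ∃ T0 : ℝ, 10 ≤ T0 ∧ ∀ T : ℝ, T0 ≤ T → ∀ LT : ℝ,
      |LT - Real.log T| ≤ 1 →
    ∀ A B : ℝ, T + 1 ≤ A → B ≤ 2 * T - 1 → T ^ r ≤ B - A →
      (∀ s : ℂ, s ∈ zset F A B →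
        (s.im ≤ A + 2 * Real.log T ∨ B - 2 * Real.log T ≤ s.im) → s.re ≤ 1 / 2 + τ) →
      ∀ σ w : ℝ, ∀ X : ℕ, 0 < σ → 0 ≤ w → w ≤ θ / 4 * (B - A) →
      Real.sqrt 2 * Real.exp (-w ^ 2 / (4 * σ ^ 2)) ≤ θ / (1 + θ) →
      (X : ℝ) ^ 4 * (Real.sqrt 2 * Real.exp (-w ^ 2 / (4 * σ ^ 2))) ≤ 1 →
      (lam + κ) * Real.log T ≤ Real.log (X + 1) →
      |(NN F A B : ℝ) - (B - A) * LT / (2 * Real.pi)| ≤ η * ((B - A) * LT / (2 * Real.pi)) ∧
      ∀ u : ℝ, 0 ≤ u → u ≤ lam * Real.log T →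
      ∫ x in (A - w)..(B + w), ‖EE (bb a u) X σ x‖ ^ 2 ≤ B - A →
      |JN F A B u - ((B - A) * LT / (2 * Real.pi)) * MT LT u| ≤
        η * ((B - A) * LT / (2 * Real.pi)) * (1 + LT * Real.exp (-u ^ 2)) := by
  have ha : ∀ n, ‖a n‖ ≤ ArithmeticFunction.vonMangoldt n := fun n => (han n).le
  intro r lam κ η hr hr1 hlam hlam1 hgap hκ hη
  have hpi := Real.pi_pos
  set θ : ℝ := min (1 / 4) (η / 240) with hθ
  have hθ0 : 0 < θ := lt_min (by norm_num) (by positivity)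
  have hθ4 : θ ≤ 1 / 4 := min_le_left _ _
  have hθ1 : θ ≤ 1 := by linarith
  have hθη : θ ≤ η / 240 := min_le_right _ _
  obtain ⟨K1, K2, T0, hK1, hK2, hT0, hJu⟩ :=
    JJ_upper hF ha hld hτ r lam κ θ hr hr1 hlam hlam1 hgap hκ hθ0 hθ1
  obtain ⟨K1', K2', T0', hK1', hK2', hT0', hJl⟩ :=
    JJ_lower hF han hld lam κ θ hlam hlam1 hκ hθ0 hθ1
  obtain ⟨C1, hC1, hVV⟩ := VV_close (η / 256) (by positivity)
  obtain ⟨C5, hC5, hNN⟩ := nn_short hF
  obtain ⟨L1, hL1⟩ := mid_bound (4 * K1) (η / 4) (by positivity) (by positivity)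
  obtain ⟨L1', hL1'⟩ := mid_bound (4 * K1') (η / 4) (by positivity) (by positivity)
  set spi := Real.sqrt Real.pi with hspi
  have hspi1 : 1 ≤ spi := by
    rw [hspi, Real.one_le_sqrt]; linarith [Real.pi_gt_three]
  have hspi2 : spi ≤ 2 := by
    rw [hspi, Real.sqrt_le_left (by norm_num)]
    linarith [Real.pi_lt_four]
  have evL : ∀ᶠ L : ℝ in atTop, ((L1 + 1 ≤ L ∧ L1' + 1 ≤ L) ∧
      (4 * (16 * C1 + 8 + 2 * Real.pi * K2) / η + 1 ≤ L ∧
        4 * (16 * C1 + 8 + 2 * Real.pi * K2') / η + 1 ≤ L)) ∧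
      (4 * Real.pi * (2 * C5 + 1) / η + 1 ≤ L ∧ 1 / θ + 1 ≤ L) :=
    (((eventually_ge_atTop _).and (eventually_ge_atTop _)).and
      ((eventually_ge_atTop _).and (eventually_ge_atTop _))).and
      ((eventually_ge_atTop _).and (eventually_ge_atTop _))
  have ev4 := H613SI.ev_pow r hr
  have ev5 : ∀ᶠ T : ℝ in atTop, 4 * Real.log T ≤ θ * T ^ r := by
    have h1 := (isLittleO_log_rpow_atTop hr).bound (show (0 : ℝ) < θ / 4 by positivity)
    filter_upwards [h1, eventually_ge_atTop 1] with T hT hT1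
    have hl : 0 ≤ Real.log T := Real.log_nonneg hT1
    rw [Real.norm_of_nonneg hl, Real.norm_of_nonneg (by positivity)] at hT
    linarith
  obtain ⟨T6, hT6⟩ := (((Real.tendsto_log_atTop.eventually evL).and ev4).and
    ev5).exists_forall_of_atTop
  refine ⟨θ, hθ0, hθ1, max (max T0 T0') T6, (hT0.trans (le_max_left _ _)).trans (le_max_left _ _),
    fun T hT LT hLT => ?_⟩
  have hTT0 : T0 ≤ T := ((le_max_left _ _).trans (le_max_left _ _)).trans hT
  have hTT0' : T0' ≤ T := ((le_max_right _ _).trans (le_max_left _ _)).trans hT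
  obtain ⟨⟨⟨⟨⟨hM1, hM1'⟩, hM2, hM2'⟩, hM3, hM4⟩, hL10, hL11⟩, hL12⟩ :=
    hT6 T ((le_max_right _ _).trans hT)
  intro A B hA hB hAB hz σ w X hσ hw0 hw1 hmass hmass2 hXlog
  have hJu' := hJu T hTT0 A B hA hB hAB hz σ w X hσ hw0 hw1 hmass hXlog
  have hT10 : 10 ≤ T := hT0.trans hTT0
  have hTpos : 0 < T := by linarith
  set L := Real.log T with hL
  set H : ℝ := B - A with hHdef
  have hH0 : 0 < H := by linarith
  have hJl' := hJl T hTT0' A B hA hB (by
    calc 4 * L ≤ θ * T ^ r := hL12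
      _ ≤ θ * H := by gcongr) σ w X hσ hw0 hw1 hmass2 hXlog
  obtain ⟨hLT1, hLT2⟩ := abs_le.1 hLT
  have hLLT : L - 1 ≤ LT := by linarith
  have hLLT2 : LT ≤ L + 1 := by linarith
  have hθinv : 1 / θ ≤ LT := by linarith
  have hLT1' : 1 ≤ LT := by
    refine le_trans ?_ hθinv
    rw [le_div_iff₀ hθ0]; linarith
  have hLTpos : 0 < LT := by linarith
  have hθLT : 1 ≤ θ * LT := by
    rw [div_le_iff₀ hθ0] at hθinv
    linarith
  have hLpos : 0 < L := by
    have : 0 < 1 / θ := by positivity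
    linarith
  have hLu : L ≤ (1 + θ) * LT := by linarith
  have hLl : (1 - θ) * LT ≤ L := by linarith
  have hL2T : L ≤ 2 * LT := by nlinarith
  refine ⟨?_, fun u hu0 hu1 hIE => ?_⟩
  · have h1 := hNN T hT10 A B (by linarith) (by linarith) (by linarith)
    rw [← hHdef, ← hL] at h1
    exact abs_log_aux H L LT C5 _ η hH0 hC5 hη hLT h1 (hL10.trans hAB) (by linarith)
  · have h1 := hJu' u hu0 hu1
    have h2 := hJl' u hu0 hu1
    have hV := abs_le.1 (hVV u hu0)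
    have hVn := VV_nonneg u
    have huL : u ≤ 2 * LT := by
      have : lam * L ≤ 1 * L := by gcongr
      linarith
    set e := Real.exp (-u ^ 2) with he
    have he0 : 0 ≤ e := (Real.exp_pos _).le
    set E := Real.exp (2 * u - u ^ 2 / 2) with hE
    have hE0 : 0 ≤ E := (Real.exp_pos _).le
    have c1 := comb_up θ H L LT spi e E (VV u) u K1 K2 _ _ C1 (η / 256) hθ0 hθ1 hH0 hLTpos
      hLpos hLu hspi1 he0 hE0 hu0 huL (by linarith [hV.2]) (by positivity) hC1.le hK1 hK2 hIE hVn h1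
    have c2 := comb_low θ H L LT spi e E (VV u) u K1' K2' _ _ C1 (η / 256) hθ0 hθ4 hH0 hLTpos
      hLpos hLl hL2T hspi1 hspi2 he0 hE0 hu0 huL (by linarith [hV.1]) (by linarith [hV.2])
      (by positivity) hC1.le hK1' hK2' hIE hVn h2
    have m1 := hL1 LT (by linarith) u hu0
    have m2 := hL1' LT (by linarith) u hu0
    rw [← hE, ← he] at m1 m2
    have t1 := err_total θ LT e E K1 K2 C1 (η / 256) η hLT1' he0 hη hθη le_rfl m1 (by
      have : 4 * (16 * C1 + 8 + 2 * Real.pi * K2) / η ≤ LT := by linarith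
      rw [div_le_iff₀ hη] at this
      linarith)
    have t2 := err_total θ LT e E K1' K2' C1 (η / 256) η hLT1' he0 hη hθη le_rfl m2 (by
      have : 4 * (16 * C1 + 8 + 2 * Real.pi * K2') / η ≤ LT := by linarith
      rw [div_le_iff₀ hη] at this
      linarith)
    have hN0 : 0 ≤ H / (2 * Real.pi) := by positivity
    have t1' := mul_le_mul_of_nonneg_left t1 hN0
    have t2' := mul_le_mul_of_nonneg_left t2 hN0
    have hmt : (H * LT / (2 * Real.pi)) * MT LT u = H / (2 * Real.pi) * (LT ^ 2 * e / spi + u) := by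
      unfold MT
      rw [← hspi, ← he]
      field_simp
    have hrhs : η * (H * LT / (2 * Real.pi)) * (1 + LT * e) =
        H / (2 * Real.pi) * (η * LT * (1 + LT * e)) := by ring
    have hJN : JN F A B u = JJ F A B u / spi := rfl
    rw [hmt, hrhs, hJN, abs_le]
    constructor <;> linarith

end H370.A4
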