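import Pool.Agent.Helper923.PNT
import Pool.Agent.H345R2.A2.VVl

/-! The smoothed sum of `Λ²`, pointwise, from the prime number theorem. -/

open Complex Filter Topology Set MeasureTheory
open scoped BigOperators

namespace H370.A4

open H370.A2

lemma psi_close (ε : ℝ) (hε : 0 < ε) : ∃ C : ℝ, 0 < C ∧ ∀ x : ℝ, 1 ≤ x →
    |Chebyshev.psi x - x| ≤ ε * x + C := by
  have h := Pool.Agent.Helper923.PNT.psi_div_tendsto
  rw [Metric.tendsto_atTop] at h
  obtain ⟨X, hX⟩ := h ε hε
  have hl4 : 0 < Real.log 4 := Real.log_pos (by norm_num)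
  refine ⟨(Real.log 4 + 5) * |X| + 1, by positivity, fun x hx => ?_⟩
  have hx0 : 0 < x := by linarith
  rcases le_or_gt X x with h1 | h1
  · have h2 := hX x h1
    rw [Real.dist_eq] at h2
    have h3 : Chebyshev.psi x - x = (Chebyshev.psi x / x - 1) * x := by field_simp
    rw [h3, abs_mul, abs_of_pos hx0]
    have h4 : |Chebyshev.psi x / x - 1| * x ≤ ε * x := by gcongr
    have h5 : 0 ≤ (Real.log 4 + 5) * |X| := by positivity
    linarith
  · have h2 := Chebyshev.psi_le_const_mul_self hx0.le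
    have h3 := Chebyshev.psi_nonneg x
    have h4 : x ≤ |X| := h1.le.trans (le_abs_self X)
    have h5 : (Real.log 4 + 5) * x ≤ (Real.log 4 + 5) * |X| := by gcongr
    have h6 : 0 ≤ ε * x := by positivity
    have h7 : 0 ≤ Real.log 4 * x := by positivity
    rw [abs_le]
    constructor
    · nlinarith
    · nlinarith

/-- the weight, as a function of `x` -/
noncomputable def GG (u x : ℝ) : ℝ := Real.log x / x * Real.exp (-(u - Real.log x) ^ 2)

noncomputable def qq (u v : ℝ) : ℝ := Real.exp (-(u - v) ^ 2) * (1 - v + 2 * v * (u - v))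

lemma GG_deriv (u : ℝ) {x : ℝ} (hx : 0 < x) :
    HasDerivAt (GG u) (qq u (Real.log x) / x ^ 2) x := by
  have hl := Real.hasDerivAt_log hx.ne'
  have h1 : HasDerivAt (fun x => Real.log x / x) ((x⁻¹ * x - Real.log x * 1) / x ^ 2) x :=
    hl.div (hasDerivAt_id x) hx.ne'
  have h2 : HasDerivAt (fun x => -(u - Real.log x) ^ 2) (2 * (u - Real.log x) * x⁻¹) x := by
    have h3 := ((hl.const_sub u).fun_pow 2).neg
    refine h3.congr_deriv ?_
    push_cast
    ring
  have h4 := h1.mul h2.exp
  refine h4.congr_deriv ?_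
  unfold qq
  field_simp

lemma WW_deriv (u : ℝ) {x : ℝ} (hx : 0 < x) :
    HasDerivAt (fun x => x * GG u x) (GG u x + x * (qq u (Real.log x) / x ^ 2)) x := by
  have h := (hasDerivAt_id x).mul (GG_deriv u hx)
  refine h.congr_deriv ?_
  simp only [id]
  ring

lemma GG_contOn (u : ℝ) (N : ℝ) : ContinuousOn (GG u) (Set.Icc 1 N) := by
  intro x hx
  have : 0 < x := by linarith [hx.1]
  exact (GG_deriv u this).continuousAt.continuousWithinAt

lemma qq_contOn (u : ℝ) (N : ℝ) : ContinuousOn (fun x => qq u (Real.log x) / x ^ 2)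
    (Set.Icc 1 N) := by
  intro x hx
  have h0 : 0 < x := by linarith [hx.1]
  have hl : ContinuousAt Real.log x := Real.continuousAt_log h0.ne'
  have h1 : Continuous (qq u) := by unfold qq; fun_prop
  have h2 : ContinuousAt (fun x => qq u (Real.log x)) x := h1.continuousAt.comp hl
  exact (h2.div (by fun_prop) (by positivity)).continuousWithinAt

/-- change of variables -/
lemma cov (f : ℝ → ℝ) (hf : Continuous f) (N : ℝ) (hN : 1 ≤ N) :
    ∫ x in (1 : ℝ)..N, f (Real.log x) / x = ∫ v in (0 : ℝ)..Real.log N, f v := by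
  have h := intervalIntegral.integral_comp_mul_deriv (a := 1) (b := N) (f := Real.log)
    (f' := fun x => x⁻¹) (g := f) (fun x hx => by
      rw [Set.uIcc_of_le hN] at hx
      exact Real.hasDerivAt_log (by linarith [hx.1])) (by
      rw [Set.uIcc_of_le hN]
      exact continuousOn_inv₀.mono fun x hx => by
        simp only [Set.mem_compl_iff, Set.mem_singleton_iff]
        linarith [hx.1]) hf
  rw [Real.log_one] at h
  rw [← h]
  refine intervalIntegral.integral_congr fun x _ => ?_
  simp only [Function.comp]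
  rw [div_eq_mul_inv]

lemma kap_bound {u v : ℝ} (hu : 0 ≤ u) (hv : 0 ≤ v) :
    |qq u v| ≤ (1 + u) * (9 * Real.exp (-(v - u) ^ 2 / 2)) ∧
    |qq u v| * Real.exp (-v) ≤ 9 * Real.exp (-(v - u) ^ 2 / 2) ∧
    v * Real.exp (-(u - v) ^ 2) ≤ u + 1 := by
  set w : ℝ := |v - u| with hw
  have hw0 : 0 ≤ w := abs_nonneg _
  have hw2 : (v - u) ^ 2 = w ^ 2 := by rw [hw, sq_abs]
  have hw3 : (u - v) ^ 2 = w ^ 2 := by rw [← hw2]; ring
  have hvw : v ≤ u + w := by
    have := le_abs_self (v - u); linarith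
  rw [hw2, hw3]
  have e0 : Real.exp (-w ^ 2) = Real.exp (-w ^ 2 / 2) * Real.exp (-w ^ 2 / 2) := by
    rw [← Real.exp_add]; congr 1; ring
  have hE := Real.exp_pos (-w ^ 2 / 2)
  have e1 : (1 + w ^ 2 / 2) * Real.exp (-w ^ 2 / 2) ≤ 1 := by
    have h1 := Real.add_one_le_exp (w ^ 2 / 2)
    calc (1 + w ^ 2 / 2) * Real.exp (-w ^ 2 / 2) ≤ Real.exp (w ^ 2 / 2) * Real.exp (-w ^ 2 / 2) := by
          gcongr; linarith
      _ = 1 := by rw [← Real.exp_add]; simp [neg_div]
  have e2 : (2 + 3 * w + 2 * w ^ 2) * Real.exp (-w ^ 2 / 2) ≤ 9 := by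
    have h2 : 2 + 3 * w + 2 * w ^ 2 ≤ 9 * (1 + w ^ 2 / 2) := by nlinarith [sq_nonneg (w - 1)]
    calc _ ≤ 9 * (1 + w ^ 2 / 2) * Real.exp (-w ^ 2 / 2) := by gcongr
      _ = 9 * ((1 + w ^ 2 / 2) * Real.exp (-w ^ 2 / 2)) := by ring
      _ ≤ 9 * 1 := by gcongr
      _ = 9 := by ring
  have e3 : |qq u v| ≤ Real.exp (-w ^ 2) * (1 + v + 2 * v * w) := by
    unfold qq
    rw [abs_mul, abs_of_pos (Real.exp_pos _), hw3]
    apply mul_le_mul_of_nonneg_left _ (Real.exp_pos _).le
    have h1 : |u - v| = w := by rw [hw, abs_sub_comm]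
    calc |1 - v + 2 * v * (u - v)| ≤ |1 - v| + |2 * v * (u - v)| := abs_add_le _ _
      _ ≤ (1 + v) + 2 * v * w := by
          rw [abs_mul, h1, abs_of_nonneg (show 0 ≤ 2 * v by linarith)]
          have : |1 - v| ≤ 1 + v := by rw [abs_le]; constructor <;> linarith
          linarith
  have hqn := abs_nonneg (qq u v)
  refine ⟨?_, ?_, ?_⟩
  · refine e3.trans ?_
    have h1 : 1 + v + 2 * v * w ≤ (1 + u) * (2 + 3 * w + 2 * w ^ 2) := by
      have : v ≤ (1 + u) * (1 + w) := by nlinarith
      nlinarith [mul_nonneg hw0 (sub_nonneg.2 this), mul_nonneg hu hw0]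
    calc Real.exp (-w ^ 2) * (1 + v + 2 * v * w) ≤
        Real.exp (-w ^ 2) * ((1 + u) * (2 + 3 * w + 2 * w ^ 2)) := by gcongr
      _ = (1 + u) * (((2 + 3 * w + 2 * w ^ 2) * Real.exp (-w ^ 2 / 2)) *
          Real.exp (-w ^ 2 / 2)) := by rw [e0]; ring
      _ ≤ _ := by gcongr
  · have h1 : (1 + v + 2 * v * w) * Real.exp (-v) ≤ 2 + 2 * w := by
      have h2 : Real.exp (-v) ≤ 1 := Real.exp_le_one_iff.2 (by linarith)
      have h3 : v * Real.exp (-v) ≤ 1 := by
        have := Real.add_one_le_exp v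
        rw [Real.exp_neg, ← div_eq_mul_inv, div_le_one (Real.exp_pos _)]
        linarith
      have h4 : v * Real.exp (-v) * w ≤ 1 * w := by gcongr
      nlinarith
    calc |qq u v| * Real.exp (-v) ≤ Real.exp (-w ^ 2) * (1 + v + 2 * v * w) * Real.exp (-v) := by
          gcongr
      _ = Real.exp (-w ^ 2) * ((1 + v + 2 * v * w) * Real.exp (-v)) := by ring
      _ ≤ Real.exp (-w ^ 2) * (2 + 2 * w) := by gcongr
      _ ≤ Real.exp (-w ^ 2) * (2 + 3 * w + 2 * w ^ 2) := by
          apply mul_le_mul_of_nonneg_left _ (Real.exp_pos _).le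
          nlinarith [sq_nonneg w]
      _ = ((2 + 3 * w + 2 * w ^ 2) * Real.exp (-w ^ 2 / 2)) *
          Real.exp (-w ^ 2 / 2) := by rw [e0]; ring
      _ ≤ _ := by gcongr
  · have h1 : Real.exp (-w ^ 2) ≤ 1 := Real.exp_le_one_iff.2 (by nlinarith)
    have h2 : w * Real.exp (-w ^ 2) ≤ 1 := by
      have h3 := Real.add_one_le_exp (w ^ 2)
      rw [Real.exp_neg, ← div_eq_mul_inv, div_le_one (Real.exp_pos _)]
      nlinarith [sq_nonneg (w - 1 / 2)]
    calc v * Real.exp (-w ^ 2) ≤ (u + w) * Real.exp (-w ^ 2) := by gcongr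
      _ = u * Real.exp (-w ^ 2) + w * Real.exp (-w ^ 2) := by ring
      _ ≤ u * 1 + 1 := by gcongr
      _ = u + 1 := by ring

/-- the smoothed prime sum -/
theorem sum_close (ε : ℝ) (hε : 0 < ε) : ∃ C : ℝ, 0 < C ∧ ∀ u : ℝ, 0 ≤ u → ∀ N : ℕ, 1 ≤ N →
    |∑ k ∈ Finset.Icc 1 N, ArithmeticFunction.vonMangoldt k * GG u k -
      ∫ v in (0 : ℝ)..Real.log N, v * Real.exp (-(u - v) ^ 2)| ≤ ε * u + C := by
  have hpi := Real.pi_pos
  set c0 : ℝ := 9 * Real.sqrt (2 * Real.pi) with hc0
  have hc00 : 0 < c0 := by positivity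
  obtain ⟨C, hC, hpsi⟩ := psi_close (ε / (1 + c0)) (by positivity)
  set e : ℝ := ε / (1 + c0) with he
  have he0 : 0 < e := by positivity
  refine ⟨ε + C * (1 + c0), by positivity, fun u hu N hN => ?_⟩
  have hN1 : (1 : ℝ) ≤ N := by exact_mod_cast hN
  have hN0 : (0 : ℝ) < N := by linarith
  have hlN : 0 ≤ Real.log N := Real.log_nonneg hN1
  set q : ℝ → ℝ := fun x => qq u (Real.log x) / x ^ 2 with hq
  have hqc : ContinuousOn q (Set.Icc 1 (N : ℝ)) := qq_contOn u N
  have hderiv : ∀ t ∈ Set.Icc (1 : ℝ) N, deriv (GG u) t = q t := fun t ht =>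
    (GG_deriv u (by linarith [ht.1])).deriv
  have hqi : IntegrableOn q (Set.Icc 1 (N : ℝ)) := hqc.integrableOn_Icc
  have hdi : IntegrableOn (deriv (GG u)) (Set.Icc 1 (N : ℝ)) :=
    hqi.congr_fun (fun t ht => (hderiv t ht).symm) measurableSet_Icc
  have habel := sum_mul_eq_sub_integral_mul₀' (f := GG u)
    (fun k => (ArithmeticFunction.vonMangoldt k : ℝ)) (by simp) N
    (fun t ht => (GG_deriv u (by linarith [ht.1])).differentiableAt) hdi
  have hpsiN : ∑ k ∈ Finset.Icc 0 N, (ArithmeticFunction.vonMangoldt k : ℝ) =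
      Chebyshev.psi N := by
    rw [Chebyshev.psi_eq_sum_Icc, Nat.floor_natCast]
  have hS : ∑ k ∈ Finset.Icc 1 N, ArithmeticFunction.vonMangoldt k * GG u k =
      ∑ k ∈ Finset.Icc 0 N, GG u k * ArithmeticFunction.vonMangoldt k := by
    rw [show Finset.Icc 0 N = insert 0 (Finset.Icc 1 N) by
      ext k; simp only [Finset.mem_insert, Finset.mem_Icc]; omega,
      Finset.sum_insert (by simp)]
    simp only [ArithmeticFunction.map_zero, mul_zero, zero_add]
    exact Finset.sum_congr rfl fun k _ => mul_comm _ _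
  have hI1 : ∫ t in Set.Ioc (1 : ℝ) N, deriv (GG u) t *
        ∑ k ∈ Finset.Icc 0 ⌊t⌋₊, (ArithmeticFunction.vonMangoldt k : ℝ) =
      ∫ t in (1 : ℝ)..N, q t * Chebyshev.psi t := by
    rw [intervalIntegral.integral_of_le hN1]
    refine setIntegral_congr_fun measurableSet_Ioc fun t ht => ?_
    rw [hderiv t ⟨ht.1.le, ht.2⟩, Chebyshev.psi_eq_sum_Icc]
  have hqpi : IntervalIntegrable (fun t => q t * Chebyshev.psi t) volume 1 N := by
    rw [intervalIntegrable_iff_integrableOn_Icc_of_le hN1]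
    have := integrableOn_mul_sum_Icc (m := 0) (fun k => (ArithmeticFunction.vonMangoldt k : ℝ))
      (zero_le_one' ℝ) hqi
    refine this.congr_fun (fun t _ => ?_) measurableSet_Icc
    rw [Chebyshev.psi_eq_sum_Icc]
  have hqt : ContinuousOn (fun t => q t * t) (Set.Icc 1 (N : ℝ)) := hqc.mul continuousOn_id
  have hqti : IntervalIntegrable (fun t => q t * t) volume 1 N := by
    apply ContinuousOn.intervalIntegrable
    rw [Set.uIcc_of_le hN1]
    exact hqt
  have hGi : IntervalIntegrable (GG u) volume 1 N := by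
    apply ContinuousOn.intervalIntegrable
    rw [Set.uIcc_of_le hN1]
    exact GG_contOn u N
  have hI2 : ∫ t in (1 : ℝ)..N, q t * Chebyshev.psi t =
      (∫ t in (1 : ℝ)..N, q t * t) + ∫ t in (1 : ℝ)..N, q t * (Chebyshev.psi t - t) := by
    rw [← intervalIntegral.integral_add hqti]
    · refine intervalIntegral.integral_congr fun t _ => ?_
      ring
    · have h1 := hqpi.sub hqti
      refine h1.congr (fun t _ => ?_)
      ring
  have hI3 : (∫ t in (1 : ℝ)..N, GG u t) + ∫ t in (1 : ℝ)..N, q t * t = N * GG u N := by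
    rw [← intervalIntegral.integral_add hGi hqti]
    have h1 := intervalIntegral.integral_eq_sub_of_hasDerivAt (a := 1) (b := (N : ℝ))
      (f := fun x => x * GG u x) (f' := fun x => GG u x + q x * x) (fun x hx => by
        rw [Set.uIcc_of_le hN1] at hx
        refine (WW_deriv u (by linarith [hx.1])).congr_deriv ?_
        simp only [hq]
        ring) (hGi.add hqti)
    rw [h1]
    unfold GG
    simp
  have hI4 : ∫ t in (1 : ℝ)..N, GG u t = ∫ v in (0 : ℝ)..Real.log N, v * Real.exp (-(u - v) ^ 2) := by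
    rw [← cov (fun v => v * Real.exp (-(u - v) ^ 2)) (by fun_prop) N hN1]
    refine intervalIntegral.integral_congr fun t _ => ?_
    unfold GG
    ring
  have hid : ∑ k ∈ Finset.Icc 1 N, ArithmeticFunction.vonMangoldt k * GG u k -
      ∫ v in (0 : ℝ)..Real.log N, v * Real.exp (-(u - v) ^ 2) =
      GG u N * (Chebyshev.psi N - N) - ∫ t in (1 : ℝ)..N, q t * (Chebyshev.psi t - t) := by
    rw [hS, habel, hpsiN, hI1, hI2, ← hI4]
    linarith
  rw [hid]
  -- bounds
  have hb := fun v hv => kap_bound (u := u) (v := v) hu hv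
  have b1 : |GG u N * (Chebyshev.psi N - N)| ≤ e * (u + 1) + C := by
    have h1 := hpsi N hN1
    have h2 : 0 ≤ GG u N := by unfold GG; positivity
    have h3 : GG u N * N ≤ u + 1 := by
      have : GG u N * N = Real.log N * Real.exp (-(u - Real.log N) ^ 2) := by
        unfold GG; field_simp
      rw [this]
      exact (hb _ hlN).2.2
    have h4 : GG u N ≤ 1 := by
      unfold GG
      have h5 : Real.log N / N ≤ 1 := by
        rw [div_le_one hN0]
        have := Real.log_le_sub_one_of_pos hN0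
        linarith
      have h6 : Real.exp (-(u - Real.log N) ^ 2) ≤ 1 :=
        Real.exp_le_one_iff.2 (by nlinarith [sq_nonneg (u - Real.log N)])
      calc _ ≤ 1 * 1 := by gcongr
        _ = (1 : ℝ) := by ring
    rw [abs_mul, abs_of_nonneg h2]
    calc GG u N * |Chebyshev.psi N - N| ≤ GG u N * (e * N + C) := by gcongr
      _ = e * (GG u N * N) + GG u N * C := by ring
      _ ≤ e * (u + 1) + 1 * C := by gcongr
      _ = _ := by ring
  have b2 : |∫ t in (1 : ℝ)..N, q t * (Chebyshev.psi t - t)| ≤ (e * (1 + u) + C) * c0 := by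
    set g : ℝ → ℝ := fun v => (e * (1 + u) + C) * (9 * Real.exp (-(v - u) ^ 2 / 2)) with hg
    have hgc : Continuous g := by fun_prop
    have h1 : |∫ t in (1 : ℝ)..N, q t * (Chebyshev.psi t - t)| ≤
        ∫ t in (1 : ℝ)..N, g (Real.log t) / t := by
      rw [← Real.norm_eq_abs]
      apply intervalIntegral.norm_integral_le_of_norm_le hN1
      · refine Eventually.of_forall fun t ht => ?_
        have ht1 : 1 ≤ t := ht.1.le
        have ht0 : 0 < t := by linarith
        have hlt : 0 ≤ Real.log t := Real.log_nonneg ht1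
        obtain ⟨k1, k2, -⟩ := hb _ hlt
        rw [Real.exp_neg, Real.exp_log ht0] at k2
        rw [Real.norm_eq_abs, abs_mul]
        have h2 := hpsi t ht1
        have h3 : |q t| = |qq u (Real.log t)| / t ^ 2 := by
          simp only [hq]
          rw [abs_div, abs_of_pos (show 0 < t ^ 2 by positivity)]
        rw [h3]
        have hqn := abs_nonneg (qq u (Real.log t))
        calc |qq u (Real.log t)| / t ^ 2 * |Chebyshev.psi t - t| ≤
            |qq u (Real.log t)| / t ^ 2 * (e * t + C) := by gcongr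
          _ = (e * |qq u (Real.log t)| + C * (|qq u (Real.log t)| * t⁻¹)) / t := by
              field_simp
          _ ≤ (e * ((1 + u) * (9 * Real.exp (-(Real.log t - u) ^ 2 / 2))) +
              C * (9 * Real.exp (-(Real.log t - u) ^ 2 / 2))) / t := by gcongr
          _ = g (Real.log t) / t := by
              simp only [hg]
              ring
      · apply ContinuousOn.intervalIntegrable
        rw [Set.uIcc_of_le hN1]
        intro t ht
        have ht0 : 0 < t := by linarith [ht.1]
        have hl : ContinuousAt Real.log t := Real.continuousAt_log ht0.ne'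
        exact ((hgc.continuousAt.comp hl).div continuousAt_id ht0.ne').continuousWithinAt
    rw [cov g hgc N hN1] at h1
    refine h1.trans ?_
    have hgi : Integrable fun v : ℝ => Real.exp (-(v - u) ^ 2 / 2) := by
      have := (integrable_exp_neg_mul_sq (b := 1 / 2) (by norm_num)).comp_sub_right u
      refine this.congr (Eventually.of_forall fun v => ?_)
      simp only
      congr 1; ring
    have hgt : ∫ v : ℝ, Real.exp (-(v - u) ^ 2 / 2) = Real.sqrt (2 * Real.pi) := by
      rw [integral_sub_right_eq_self (fun v : ℝ => Real.exp (-v ^ 2 / 2)) u]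
      have := integral_gaussian (1 / 2)
      rw [show Real.pi / (1 / 2) = 2 * Real.pi by ring] at this
      rw [← this]
      congr 1; funext v; congr 1; ring
    have h2 : ∫ v in (0 : ℝ)..Real.log N, Real.exp (-(v - u) ^ 2 / 2) ≤ Real.sqrt (2 * Real.pi) := by
      rw [← hgt, intervalIntegral.integral_of_le hlN]
      exact setIntegral_le_integral hgi (Eventually.of_forall fun v => (Real.exp_pos _).le)
    simp only [hg]
    rw [intervalIntegral.integral_const_mul, intervalIntegral.integral_const_mul, hc0]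
    gcongr
  calc _ ≤ |GG u N * (Chebyshev.psi N - N)| + |∫ t in (1 : ℝ)..N, q t * (Chebyshev.psi t - t)| :=
        abs_sub _ _
    _ ≤ (e * (u + 1) + C) + (e * (1 + u) + C) * c0 := add_le_add b1 b2
    _ = e * (1 + c0) * (u + 1) + C * (1 + c0) := by ring
    _ = ε * u + (ε + C * (1 + c0)) := by
        rw [he, div_mul_cancel₀ _ (by positivity)]
        ring

end H370.A4
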