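import Pool.Agent.H345R2.A4.VVa

/-! Asymptotics of the smoothed sum of `Λ²`. -/

open Complex Filter Topology Set MeasureTheory
open scoped BigOperators

namespace H370.A4

open H370.A2

lemma int_close {u : ℝ} (hu : 0 ≤ u) :
    |(∫ v in Set.Ioi (0 : ℝ), v * Real.exp (-(u - v) ^ 2)) - Real.sqrt Real.pi * u| ≤ 2 * ntG := by
  have h0 : Integrable (fun v : ℝ => Real.exp (-(v - u) ^ 2)) := nt_int0.comp_sub_right u
  have h1 : Integrable (fun v : ℝ => |v - u| * Real.exp (-(v - u) ^ 2)) :=
    nt_int1.comp_sub_right u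
  have h1' : Integrable (fun v : ℝ => (v - u) * Real.exp (-(v - u) ^ 2)) := by
    refine h1.mono' (by fun_prop) (Eventually.of_forall fun v => ?_)
    rw [norm_mul, Real.norm_eq_abs, Real.norm_of_nonneg (Real.exp_pos _).le]
  have he : (fun v : ℝ => v * Real.exp (-(u - v) ^ 2)) =
      fun v => (v - u) * Real.exp (-(v - u) ^ 2) + u * Real.exp (-(v - u) ^ 2) := by
    funext v
    rw [show (u - v) ^ 2 = (v - u) ^ 2 by ring]
    ring
  have hi : Integrable (fun v : ℝ => v * Real.exp (-(u - v) ^ 2)) := by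
    rw [he]; exact h1'.add (h0.const_mul u)
  have hG : ∫ v : ℝ, Real.exp (-(v - u) ^ 2) = Real.sqrt Real.pi := by
    rw [integral_sub_right_eq_self (fun v : ℝ => Real.exp (-v ^ 2)) u]
    have := integral_gaussian 1
    simpa using this
  have hA : |∫ v : ℝ, (v - u) * Real.exp (-(v - u) ^ 2)| ≤ ntG := by
    rw [integral_sub_right_eq_self (fun v : ℝ => v * Real.exp (-v ^ 2)) u, ← Real.norm_eq_abs]
    refine (norm_integral_le_integral_norm _).trans (le_of_eq ?_)
    unfold ntG
    refine integral_congr_ae (Eventually.of_forall fun v => ?_)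
    simp only
    rw [norm_mul, Real.norm_eq_abs, Real.norm_of_nonneg (Real.exp_pos _).le]
  have hT : ∫ v : ℝ, v * Real.exp (-(u - v) ^ 2) =
      (∫ v : ℝ, (v - u) * Real.exp (-(v - u) ^ 2)) + Real.sqrt Real.pi * u := by
    rw [he, integral_add h1' (h0.const_mul u), integral_const_mul, hG]
    ring
  have hsplit := integral_add_compl (measurableSet_Ioi (a := (0 : ℝ))) hi
  have hB : |∫ v in (Set.Ioi (0 : ℝ))ᶜ, v * Real.exp (-(u - v) ^ 2)| ≤ ntG := by
    rw [← Real.norm_eq_abs]
    refine (norm_integral_le_integral_norm _).trans ?_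
    calc ∫ v in (Set.Ioi (0 : ℝ))ᶜ, ‖v * Real.exp (-(u - v) ^ 2)‖ ≤
        ∫ v in (Set.Ioi (0 : ℝ))ᶜ, |v| * Real.exp (-v ^ 2) := by
          refine setIntegral_mono_on hi.norm.integrableOn nt_int1.integrableOn
            measurableSet_Ioi.compl fun v hv => ?_
          have hv0 : v ≤ 0 := by simpa using hv
          rw [norm_mul, Real.norm_eq_abs, Real.norm_of_nonneg (Real.exp_pos _).le]
          have : -(u - v) ^ 2 ≤ -v ^ 2 := by nlinarith
          gcongr
      _ ≤ _ := setIntegral_le_integral nt_int1 (Eventually.of_forall fun v => by positivity)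
  have h2 : (∫ v in Set.Ioi (0 : ℝ), v * Real.exp (-(u - v) ^ 2)) - Real.sqrt Real.pi * u =
      (∫ v : ℝ, (v - u) * Real.exp (-(v - u) ^ 2)) -
        ∫ v in (Set.Ioi (0 : ℝ))ᶜ, v * Real.exp (-(u - v) ^ 2) := by linarith
  rw [h2]
  refine (abs_sub _ _).trans ?_
  linarith

/-- the smoothed sum of `Λ²`, pointwise -/
theorem VV_close (ε : ℝ) (hε : 0 < ε) : ∃ C : ℝ, 0 < C ∧ ∀ u : ℝ, 0 ≤ u →
    |VV u - Real.sqrt Real.pi * u| ≤ ε * u + C := by
  obtain ⟨C, hC, hsum⟩ := sum_close ε hε
  obtain ⟨C1, hC1, hD⟩ := Dn_sum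
  have hG := nt_G_nonneg
  refine ⟨C + C1 + 2 * ntG, by positivity, fun u hu => ?_⟩
  set f : ℕ → ℝ := fun n => (ArithmeticFunction.vonMangoldt n) ^ 2 / n *
        Real.exp (-(u - Real.log n) ^ 2) with hf
  have hfs : Summable f := VV_summable u
  have ht1 : Tendsto (fun N : ℕ => ∑ k ∈ Finset.Icc 1 N, f k) atTop (𝓝 (VV u)) := by
    have h1 := (hfs.hasSum.tendsto_sum_nat).comp (tendsto_add_atTop_nat 1)
    refine h1.congr fun N => ?_
    simp only [Function.comp]
    rw [Finset.range_eq_Ico, Finset.sum_eq_sum_Ico_succ_bot (by omega)]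
    have h2 : f 0 = 0 := by simp [hf]
    rw [h2, zero_add]
    rfl
  have hi : Integrable (fun v : ℝ => v * Real.exp (-(u - v) ^ 2)) := by
    have h0 : Integrable (fun v : ℝ => Real.exp (-(v - u) ^ 2)) := nt_int0.comp_sub_right u
    have h1 : Integrable (fun v : ℝ => |v - u| * Real.exp (-(v - u) ^ 2)) :=
      nt_int1.comp_sub_right u
    have h1' : Integrable (fun v : ℝ => (v - u) * Real.exp (-(v - u) ^ 2)) := by
      refine h1.mono' (by fun_prop) (Eventually.of_forall fun v => ?_)
      rw [norm_mul, Real.norm_eq_abs, Real.norm_of_nonneg (Real.exp_pos _).le]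
    have he : (fun v : ℝ => v * Real.exp (-(u - v) ^ 2)) =
        fun v => (v - u) * Real.exp (-(v - u) ^ 2) + u * Real.exp (-(v - u) ^ 2) := by
      funext v
      rw [show (u - v) ^ 2 = (v - u) ^ 2 by ring]
      ring
    rw [he]; exact h1'.add (h0.const_mul u)
  have ht2 : Tendsto (fun N : ℕ => ∫ v in (0 : ℝ)..Real.log N, v * Real.exp (-(u - v) ^ 2)) atTop
      (𝓝 (∫ v in Set.Ioi (0 : ℝ), v * Real.exp (-(u - v) ^ 2))) :=
    intervalIntegral_tendsto_integral_Ioi 0 hi.integrableOn
      (Real.tendsto_log_atTop.comp tendsto_natCast_atTop_atTop)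
  have hlim : |VV u - ∫ v in Set.Ioi (0 : ℝ), v * Real.exp (-(u - v) ^ 2)| ≤ ε * u + C + C1 := by
    refine le_of_tendsto (ht1.sub ht2).abs ?_
    filter_upwards [eventually_ge_atTop 1] with N hN
    have h1 := hsum u hu N hN
    have h2 : |∑ k ∈ Finset.Icc 1 N, f k - ∑ k ∈ Finset.Icc 1 N,
        ArithmeticFunction.vonMangoldt k * GG u k| ≤ C1 := by
      rw [← Finset.sum_sub_distrib]
      refine (Finset.abs_sum_le_sum_abs _ _).trans (le_trans (Finset.sum_le_sum fun k hk => ?_)
        (hD N hN))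
      have hk1 : (1 : ℝ) ≤ k := by exact_mod_cast (Finset.mem_Icc.1 hk).1
      have hk0 : (0 : ℝ) < k := by linarith
      have hE1 : Real.exp (-(u - Real.log k) ^ 2) ≤ 1 :=
        Real.exp_le_one_iff.2 (by nlinarith [sq_nonneg (u - Real.log k)])
      have hE0 := Real.exp_pos (-(u - Real.log k) ^ 2)
      have hlk : 0 ≤ Real.log k := Real.log_nonneg hk1
      simp only [hf]
      unfold Dn GG
      split_ifs with hp
      · rw [ArithmeticFunction.vonMangoldt_apply_prime hp]
        have : Real.log k ^ 2 / k * Real.exp (-(u - Real.log k) ^ 2) -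
            Real.log k * (Real.log k / k * Real.exp (-(u - Real.log k) ^ 2)) = 0 := by ring
        rw [this]; simp
      · have hL0 : 0 ≤ ArithmeticFunction.vonMangoldt k := ArithmeticFunction.vonMangoldt_nonneg
        have hL1 : ArithmeticFunction.vonMangoldt k ≤ Real.log k :=
          ArithmeticFunction.vonMangoldt_le_log
        have e1 : ArithmeticFunction.vonMangoldt k ^ 2 / k * Real.exp (-(u - Real.log k) ^ 2) -
            ArithmeticFunction.vonMangoldt k * (Real.log k / k * Real.exp (-(u - Real.log k) ^ 2)) =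
            -(ArithmeticFunction.vonMangoldt k / k *
              (Real.log k - ArithmeticFunction.vonMangoldt k) *
              Real.exp (-(u - Real.log k) ^ 2)) := by ring
        have e2 : 0 ≤ Real.log k - ArithmeticFunction.vonMangoldt k := by linarith
        rw [e1, abs_neg, abs_of_nonneg (by positivity)]
        calc ArithmeticFunction.vonMangoldt k / k *
              (Real.log k - ArithmeticFunction.vonMangoldt k) *
              Real.exp (-(u - Real.log k) ^ 2) ≤ ArithmeticFunction.vonMangoldt k / k *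
              (Real.log k - 0) * 1 := by gcongr
          _ = _ := by ring
    have h3 := abs_add_le (∑ k ∈ Finset.Icc 1 N, f k - ∑ k ∈ Finset.Icc 1 N,
        ArithmeticFunction.vonMangoldt k * GG u k)
      (∑ k ∈ Finset.Icc 1 N, ArithmeticFunction.vonMangoldt k * GG u k -
      ∫ v in (0 : ℝ)..Real.log N, v * Real.exp (-(u - v) ^ 2))
    rw [sub_add_sub_cancel] at h3
    linarith
  have h4 := int_close hu
  have h5 := abs_add_le (VV u - ∫ v in Set.Ioi (0 : ℝ), v * Real.exp (-(u - v) ^ 2))
    ((∫ v in Set.Ioi (0 : ℝ), v * Real.exp (-(u - v) ^ 2)) - Real.sqrt Real.pi * u)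
  rw [sub_add_sub_cancel] at h5
  linarith

end H370.A4
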